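import Pool.Agent.Helper38.HS.NoLong

/-!
# HS-07: stability of the regular hexagon

`D = dfc`.  If `D > 10^(-11)`: all sides are `≤ 3` (`sd ≤ l ≤ 3`), `‖v1 - om v0‖² ≤ 36`, `(sd - 1)² ≤ 4`, `10^13 D ≥ 100`.
If `D ≤ 10^(-11)`: `no_long` and `mink3`: `S² + 3 X² ≤ L²`, `brackets`: `L² - S² - (4/3) X² ≤ 36 D`: `(5/3) X² ≤ 36 D`, `|X| ≤ 4.7 √D`.
`pa P = A0 a - X`, `0 ≤ S² - 8√3 pa P ≤ 36 D` (`poly_side` for `0 ≤`), `8√3 A0 = 36`, `|a - 1| ≤ 52 D`: `|S² - 36| ≤ 36 * 52 D + 13.86 * 4.7 √D + 36 D ≤ 70 √D`, `|S/6 - 1| = |S² - 36|/(6 (S + 6)) ≤ 2 √D`,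
`|sd P 0 - S/6| ≤ 25.5 √D` (`poly_side`), so `(sd P 0 - 1)² ≤ 757 D`.  `‖v1 - om v0‖² ≤ 2100 * 36 D` (`poly_turn`).
-/

namespace Pool.Agent.Helper38.HS

open Finset Real Pool.Agent.Helper98.LC Pool.Agent.Helper38.LC2

variable {a : ℝ} {P : ℕ → ℂ} {l y : ℕ → ℝ}

private theorem h86_om : ‖RG.om‖ = 1 := by
  rw [Complex.norm_def, RG.om, Complex.normSq_mk]
  have h3 : √3 * √3 = 3 := Real.mul_self_sqrt (by norm_num)
  rw [show (1 / 2 * (1 / 2) + √3 / 2 * (√3 / 2) : ℝ) = 1 by nlinarith, Real.sqrt_one]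

private theorem h86_three (u v w : ℝ) : (u + v - w) ^ 2 ≤ 3 * (u ^ 2 + v ^ 2 + w ^ 2) := by
  nlinarith [sq_nonneg (u - v), sq_nonneg (u + w), sq_nonneg (v + w)]

private theorem h86_two (u v : ℝ) : (u + v) ^ 2 ≤ 2 * u ^ 2 + 2 * v ^ 2 := by
  nlinarith [sq_nonneg (u - v)]

private theorem h86_sq {x : ℝ} (h0 : 0 ≤ x) (h1 : x ≤ 3) : (x - 1) ^ 2 ≤ 100 := by nlinarith

private theorem h86_sq' {x : ℝ} (h0 : 0 ≤ x) (h1 : x ≤ 6) : x ^ 2 ≤ 100 := by nlinarith

/-- Stability of the regular hexagon. -/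
theorem hex_stab (h : Hex a P l y) :
    ‖(P 2 - P 1) - RG.om * (P 1 - P 0)‖ ^ 2 ≤ 10 ^ 13 * dfc a l y ∧
      (‖P 1 - P 0‖ - 1) ^ 2 ≤ 10 ^ 13 * dfc a l y := by
  have hD0 := df_nonneg h
  have hsd : ∀ j ∈ range 6, sd P j ≤ 3 := by
    intro j hj
    have h1 := h.ff.ch_le j hj
    have h2 := h.cap j hj
    have h3 : min 1 a ≤ 1 := min_le_left _ _
    linarith
  have e0 : sd P 0 = ‖P 1 - P 0‖ := rfl
  have e1 : sd P 1 = ‖P 2 - P 1‖ := rfl
  rcases le_total (dfc a l y) (1 / 10 ^ 11) with hD | hD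
  · have hlong := no_long h hD
    have hD' : dfc a l y ≤ 1 / 1000 := hD.trans (by norm_num)
    obtain ⟨b1, b3, b2, b4⟩ := brackets h hD'
    have hm3 := LC3.mink3 h.ff hlong
    have ps := poly_side h.closed (k := 0) (by simp)
    have pt := poly_turn h.closed
    refine ⟨?_, ?_⟩
    · refine pt.trans ?_
      nlinarith
    · rw [← e0]
      have hS0 : 0 ≤ ∑ j ∈ range 6, sd P j := Finset.sum_nonneg fun j _ => norm_nonneg _
      have har := h.area
      set D := dfc a l y with hDdef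
      set S := ∑ j ∈ range 6, sd P j with hS
      set X := A0 * ∑ j ∈ range 6, y j with hX
      set L := ∑ j ∈ range 6, l j with hL
      have hpa : pa P = A0 * a - X := by rw [← har, hX]; ring
      have hX2 : X ^ 2 ≤ 22 * D := by linarith
      have h3 : √3 * √3 = 3 := Real.mul_self_sqrt (by norm_num)
      have h4 : 8 * √3 * A0 = 36 := by
        unfold A0
        nlinarith
      have hb0 : 0 ≤ S ^ 2 - 8 * √3 * pa P := by
        have := sq_nonneg (sd P 0 - S / 6)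
        linarith
      set b := S ^ 2 - 8 * √3 * pa P with hb
      have hS2 : S ^ 2 - 36 = b + 36 * (a - 1) - 8 * √3 * X := by
        rw [hb, hpa]
        linear_combination a * h4
      have hma : min 1 a ≤ a := min_le_right _ _
      have hm1 : min 1 a ≤ 1 := min_le_left _ _
      have ha2 : (a - 1) ^ 2 ≤ 2704 * D := by
        have h5 : |a - 1| ≤ 52 * D := by
          rw [abs_le]
          constructor <;> linarith
        have h6 : (a - 1) ^ 2 ≤ (52 * D) ^ 2 := by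
          rw [← sq_abs (a - 1)]
          exact pow_le_pow_left₀ (abs_nonneg _) h5 2
        nlinarith
      have hb2 : b ^ 2 ≤ 1296 * D := by
        have h6 : b ^ 2 ≤ (36 * D) ^ 2 := pow_le_pow_left₀ hb0 b1 2
        nlinarith
      have hX3 : (8 * √3 * X) ^ 2 ≤ 192 * 22 * D := by
        have : (8 * √3 * X) ^ 2 = 192 * X ^ 2 := by
          calc (8 * √3 * X) ^ 2 = 64 * (√3 * √3) * X ^ 2 := by ring
            _ = 192 * X ^ 2 := by rw [h3]; ring
        rw [this]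
        linarith
      have hS3 : (S ^ 2 - 36) ^ 2 ≤ 3 * (1296 * D + 1296 * 2704 * D + 192 * 22 * D) := by
        rw [hS2]
        have h8 := h86_three b (36 * (a - 1)) (8 * √3 * X)
        have h9 : (36 * (a - 1)) ^ 2 = 1296 * (a - 1) ^ 2 := by ring
        linarith
      have hS4 : (S / 6 - 1) ^ 2 * 1296 ≤ (S ^ 2 - 36) ^ 2 := by
        have h7 : (S ^ 2 - 36) ^ 2 = (S / 6 - 1) ^ 2 * (36 * (S + 6) ^ 2) := by ring
        rw [h7]
        refine mul_le_mul_of_nonneg_left ?_ (sq_nonneg _)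
        nlinarith
      have h10 := h86_two (sd P 0 - S / 6) (S / 6 - 1)
      have h11 : sd P 0 - 1 = sd P 0 - S / 6 + (S / 6 - 1) := by ring
      rw [h11]
      linarith
  · have hbig : 100 ≤ 10 ^ 13 * dfc a l y := by
      have h5 : (10 : ℝ) ^ 13 * (1 / 10 ^ 11) = 100 := by norm_num
      have h6 : (10 : ℝ) ^ 13 * (1 / 10 ^ 11) ≤ 10 ^ 13 * dfc a l y :=
        mul_le_mul_of_nonneg_left hD (by norm_num)
      linarith
    have h0 : ‖P 1 - P 0‖ ≤ 3 := hsd 0 (by simp)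
    have h1 : ‖P 2 - P 1‖ ≤ 3 := hsd 1 (by simp)
    have h2 := norm_nonneg (P 1 - P 0)
    refine ⟨?_, ?_⟩
    · refine le_trans ?_ hbig
      have h3 : ‖(P 2 - P 1) - RG.om * (P 1 - P 0)‖ ≤ 6 := by
        refine (norm_sub_le _ _).trans ?_
        rw [norm_mul, h86_om, one_mul]
        linarith
      exact h86_sq' (norm_nonneg _) h3
    · exact (h86_sq h2 h0).trans hbig

end Pool.Agent.Helper38.HS
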