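import Pool.Agent.Helper38.HS.Defs

/-!
# HS-02: one-variable inequalities

* `atan_tangent`: `h t = π/6 + √3/4 t - t²/30 - arctan ((1+t)/√3)`, `h 0 = 0` (`Real.arctan_inv_sqrt_three` or `tan (π/6) = 1/√3`), `h' t = √3/4 - t/15 - √3/(3 + (1+t)²)`
  `= t (√3 (2+t) / (4 (3 + (1+t)²)) - 1/15)`; the bracket is `≥ 0` for `-1 ≤ t ≤ 5` (`60 * 1.732 (2+t) ≥ 16 (3 + (1+t)²)`..., i.e. `15 √3 (2+t) ≥ 4 (3 + (1+t)²)`, true on `[-1, 5]`: at `-1`: `25.98 ≥ 12`,
  at `5`: `181.8 ≥ 156`, concave difference).  So `h` decreases on `[-1, 0]`, increases on `[0, 5]`.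
* `atan_lip`: the derivative of `arctan ((1+t)/√3)` is `√3/(3+(1+t)²) ≤ 1/√3 ≤ 0.578`.
* `sin_half`: `sin` is concave on `[0, π]`: chord from `0` to `1.86` (`sin 1.86 ≥ .93`: `sin 1.86 = cos (1.86 - π/2)`, `Real.one_sub_sq_div_two_le_cos`: `1 - .2893²/2 ≥ .958`); or for `τ ≤ π/2` use `Real.mul_le_sin`
  (`2/π τ ≤ sin τ`) and for `τ ∈ [π/2, 1.86]`: `sin τ = cos (τ - π/2) ≥ 1 - (τ-π/2)²/2 ≥ .958 ≥ τ/2`.
-/

namespace Pool.Agent.Helper38.HS

open Finset Real Pool.Agent.Helper98.LC Pool.Agent.Helper38.LC2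

private theorem at_s3 : √3 * √3 = 3 := Real.mul_self_sqrt (by norm_num)

private theorem at_s3_pos : 0 < √3 := Real.sqrt_pos.2 (by norm_num)

private theorem at_s3_lb : 1.7320508 < √3 := by
  rw [Real.lt_sqrt (by norm_num)]
  norm_num

private theorem at_s3_ub : √3 < 1.7320509 := by
  rw [Real.sqrt_lt' (by norm_num)]
  norm_num

private theorem at_deriv (t : ℝ) :
    HasDerivAt (fun t : ℝ => arctan ((1 + t) / √3)) (√3 / (3 + (1 + t) ^ 2)) t := by
  have h1 : HasDerivAt (fun t : ℝ => (1 + t) / √3) (1 / √3) t :=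
    ((hasDerivAt_id t).const_add 1).div_const _
  have h2 := h1.arctan
  have h3 : 1 / (1 + ((1 + t) / √3) ^ 2) * (1 / √3) = √3 / (3 + (1 + t) ^ 2) := by
    have h4 := at_s3_pos
    have h5 : √3 ^ 2 = 3 := by rw [sq]; exact at_s3
    have h6 : (0 : ℝ) < 3 + (1 + t) ^ 2 := by positivity
    rw [div_pow, h5]
    have h7 : (1 : ℝ) + (1 + t) ^ 2 / 3 = (3 + (1 + t) ^ 2) / 3 := by ring
    rw [h7, one_div_div, div_mul_div_comm, mul_one, div_eq_div_iff (by positivity) h6.ne']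
    linear_combination (-(3 + (1 + t) ^ 2)) * at_s3
  rw [h3] at h2
  exact h2

private theorem at_zero : arctan ((1 + 0) / √3) = π / 6 := by
  rw [add_zero, one_div, Real.arctan_inv_sqrt_three]

theorem atan_tangent {t : ℝ} (h1 : -1 ≤ t) (h2 : t ≤ 5) :
    arctan ((1 + t) / √3) ≤ π / 6 + √3 / 4 * t - t ^ 2 / 30 := by
  set h : ℝ → ℝ := fun t => π / 6 + √3 / 4 * t - t ^ 2 / 30 - arctan ((1 + t) / √3) with hh
  have hd : ∀ x, HasDerivAt h (√3 / 4 - x / 15 - √3 / (3 + (1 + x) ^ 2)) x := by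
    intro x
    have e1 : HasDerivAt (fun t : ℝ => π / 6 + √3 / 4 * t) (√3 / 4) x := by
      have := ((hasDerivAt_id x).const_mul (√3 / 4)).const_add (π / 6)
      rwa [mul_one] at this
    have e2 : HasDerivAt (fun t : ℝ => t ^ 2 / 30) (x / 15) x := by
      have := (hasDerivAt_pow 2 x).div_const 30
      refine this.congr_deriv ?_
      norm_num
      ring
    exact (e1.sub e2).sub (at_deriv x)
  have hf : ∀ x, √3 / 4 - x / 15 - √3 / (3 + (1 + x) ^ 2) =
      x * ((15 * √3 * (2 + x) - 4 * (3 + (1 + x) ^ 2)) / (60 * (3 + (1 + x) ^ 2))) := by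
    intro x
    have h6 : (0 : ℝ) < 3 + (1 + x) ^ 2 := by positivity
    field_simp
    ring
  have hb : ∀ x, -1 ≤ x → x ≤ 5 →
      0 ≤ (15 * √3 * (2 + x) - 4 * (3 + (1 + x) ^ 2)) / (60 * (3 + (1 + x) ^ 2)) := by
    intro x hx1 hx2
    refine div_nonneg ?_ (by positivity)
    have h3 := at_s3_lb
    have h4 : 25.98 * (2 + x) ≤ 15 * √3 * (2 + x) :=
      mul_le_mul_of_nonneg_right (by linarith) (by linarith)
    nlinarith [mul_nonneg (sub_nonneg.2 hx1) (sub_nonneg.2 hx2)]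
  have h0 : h 0 = 0 := by
    simp only [hh]
    rw [at_zero]
    ring
  have hcont : Continuous h := by
    refine continuous_iff_continuousAt.2 fun x => (hd x).continuousAt
  have key : 0 ≤ h t := by
    rcases le_total 0 t with ht | ht
    · have hm : MonotoneOn h (Set.Icc 0 5) := by
        refine monotoneOn_of_deriv_nonneg (convex_Icc 0 5) hcont.continuousOn
          (fun x _ => (hd x).differentiableAt.differentiableWithinAt) fun x hx => ?_
        rw [interior_Icc] at hx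
        rw [(hd x).deriv, hf x]
        exact mul_nonneg hx.1.le (hb x (by linarith [hx.1]) hx.2.le)
      have := hm (Set.mem_Icc.2 ⟨le_rfl, by norm_num⟩) (Set.mem_Icc.2 ⟨ht, h2⟩) ht
      rwa [h0] at this
    · have hm : AntitoneOn h (Set.Icc (-1) 0) := by
        refine antitoneOn_of_deriv_nonpos (convex_Icc (-1) 0) hcont.continuousOn
          (fun x _ => (hd x).differentiableAt.differentiableWithinAt) fun x hx => ?_
        rw [interior_Icc] at hx
        rw [(hd x).deriv, hf x]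
        exact mul_nonpos_of_nonpos_of_nonneg hx.2.le (hb x hx.1.le (by linarith [hx.2]))
      have := hm (Set.mem_Icc.2 ⟨h1, ht⟩) (Set.mem_Icc.2 ⟨by norm_num, le_rfl⟩) ht
      rwa [h0] at this
  simp only [hh] at key
  linarith

theorem atan_lip {t : ℝ} (h1 : -1 ≤ t) : |arctan ((1 + t) / √3) - π / 6| ≤ 0.578 * |t| := by
  have h2 := Convex.norm_image_sub_le_of_norm_hasDerivWithin_le
    (f := fun t : ℝ => arctan ((1 + t) / √3)) (f' := fun t => √3 / (3 + (1 + t) ^ 2))
    (s := Set.univ) (C := 0.578) (x := 0) (y := t)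
    (fun x _ => (at_deriv x).hasDerivWithinAt) (fun x _ => by
      have h3 : 0 ≤ √3 / (3 + (1 + x) ^ 2) := by positivity
      rw [Real.norm_of_nonneg h3, div_le_iff₀ (by positivity)]
      have h4 := at_s3_ub
      nlinarith [sq_nonneg (1 + x)]) convex_univ (Set.mem_univ _) (Set.mem_univ _)

  rw [at_zero, sub_zero, Real.norm_eq_abs, Real.norm_eq_abs] at h2
  exact h2

theorem sin_half {τ : ℝ} (h0 : 0 ≤ τ) (h1 : τ ≤ 1.86) : τ / 2 ≤ Real.sin τ := by
  have hpi := Real.pi_gt_d2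
  have hpi2 := Real.pi_lt_d2
  rcases le_total τ (π / 2) with h | h
  · refine le_trans ?_ (Real.mul_le_sin h0 h)
    have h3 : (1 : ℝ) / 2 ≤ 2 / π := by
      rw [div_le_div_iff₀ (by norm_num) Real.pi_pos]
      linarith
    nlinarith
  · have h2 : Real.sin τ = Real.cos (τ - π / 2) := (Real.cos_sub_pi_div_two τ).symm
    rw [h2]
    have h3 := Real.one_sub_sq_div_two_le_cos (x := τ - π / 2)
    have h4 : 0 ≤ τ - π / 2 := by linarith
    have h5 : τ - π / 2 ≤ 0.29 := by linarith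
    nlinarith

/-- `arctan (6/√3) ≥ 1.289` -/
theorem atan_six : 1.289 ≤ arctan (6 / √3) := by
  have hpi := Real.pi_gt_d6
  have h3 := at_s3
  have h3p := at_s3_pos
  have h3l := at_s3_lb
  have e1 : (6 : ℝ) / √3 = 2 * √3 := by
    rw [div_eq_iff h3p.ne']
    linarith
  rw [e1]
  have hs := Real.sin_bound (x := 0.2817) (by norm_num [abs_le])
  have hc := Real.cos_bound (x := 0.2817) (by norm_num [abs_le])
  have habs : |(0.2817 : ℝ)| = 0.2817 := abs_of_pos (by norm_num)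
  rw [habs] at hs hc
  have hs1 := (abs_le.1 hs).1
  have hc1 := (abs_le.1 hc).2
  have hs2 : (0.27795 : ℝ) ≤ Real.sin 0.2817 := by
    norm_num at hs1 ⊢
    linarith
  have hc2 : Real.cos 0.2817 ≤ (0.96066 : ℝ) := by
    norm_num at hc1 ⊢
    linarith
  have hθ : (1.289 : ℝ) ≤ π / 2 - 0.2817 := by linarith
  refine hθ.trans ?_
  have h4 : arctan (tan (π / 2 - 0.2817)) = π / 2 - 0.2817 :=
    Real.arctan_tan (by linarith) (by linarith [Real.pi_pos])
  rw [← h4]
  refine Real.arctan_strictMono.monotone ?_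
  rw [Real.tan_pi_div_two_sub, Real.tan_eq_sin_div_cos, inv_div,
    div_le_iff₀ (by linarith)]
  nlinarith

end Pool.Agent.Helper38.HS
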