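import Pool.Agent.Helper38.HS.PolyStab

/-!
# HS-04: the three brackets

`S = ∑ sd P`, `L = ∑ l`, `X = A0 ∑ y`, `m = min 1 a`, `D = dfc a l y = L + be X - 6 m` (`be * A0 = 3`), `M = A0 a`, `pa P = M - X` (`area`).
* `df_nonneg`: `interior6`.
* `m_low`: `face_iso'`: `4 π A0 a ≤ L² ≤ 324 m²` (`cap`; `L ≤ 18 m`); if `a ≤ 1`: `32.64 a ≤ 324 a²`; so `m ≥ .1`.
* `gap`: if `A0 m - X < .05` then `X > .2598 - .05`, and `nonneg_in` (`I = F`): `L ≥ (2π/3) X`, `D ≥ (2π/3 + be) X - 6 m ≥ 3.248 X - 6 (X + .05)/2.598 ≥ .93 * .2098 - .116 > 1/1000`.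
* `brackets`: `L² - (6m - be X)² = B3 + B1 + B2`, `B3 = L² - S² - (4/3) X² ≥ 0` (`mink`), `B1 = S² - 8√3 (M - X) ≥ 0` (`poly_side`), `B2 = 36 (a - m) + 8√3 (1 - m)(A0 m - X) ≥ 0`
  (`be² = 4/3`, `12 be = 8√3`, `8 √3 A0 = 36`), and `L² - (6m - be X)² = D (2L - D) ≤ 2 L D ≤ 36 D`.
  So `B1 ≤ 36 D`, `B3 ≤ 36 D`, `36 (a - m) ≤ 36 D`, `8√3 * .05 (1 - m) ≤ 36 D`.
-/

namespace Pool.Agent.Helper38.HS

open Finset Real Pool.Agent.Helper98.LC Pool.Agent.Helper38.LC2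

variable {a : ℝ} {P : ℕ → ℂ} {l y : ℕ → ℝ}

private lemma sqrt3_low : (1.732 : ℝ) < √3 := by
  rw [Real.lt_sqrt (by norm_num)]
  norm_num

private lemma sqrt3_sq : √(3 : ℝ) ^ 2 = 3 := Real.sq_sqrt (by norm_num)

private lemma A0_low : (2.598 : ℝ) < A0 := by
  unfold A0
  linarith [sqrt3_low]

private lemma L_le (h : Hex a P l y) : ∑ j ∈ range 6, l j ≤ 18 * min 1 a := by
  have h1 := Finset.sum_le_card_nsmul (range 6) l (3 * min 1 a) h.cap
  rw [Finset.card_range, nsmul_eq_mul] at h1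
  push_cast at h1
  linarith

private lemma L_nonneg (h : Hex a P l y) : 0 ≤ ∑ j ∈ range 6, l j :=
  Finset.sum_nonneg fun j hj => (h.ff.ch_nonneg j hj).trans (h.ff.ch_le j hj)

private lemma l_three (h : Hex a P l y) : ∀ j ∈ range 6, l j ≤ 3 := by
  intro j hj
  have h1 := h.cap j hj
  have h2 : min 1 a ≤ 1 := min_le_left _ _
  linarith

theorem df_nonneg (h : Hex a P l y) : 0 ≤ dfc a l y := by
  have h1 := Pool.Agent.Helper38.LC3.interior6 h.ff h.pos (Finset.card_range 6) h.cap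
  unfold dfc
  have h2 : 0 ≤ (if 8 ≤ a then 1 / 100000 * √a else (0 : ℝ)) := by
    split_ifs
    · positivity
    · exact le_refl _
  linarith

theorem m_low (h : Hex a P l y) : 0.1 ≤ min 1 a := by
  have h1 := face_iso' h.ff
  have h2 := L_le h
  have h3 := L_nonneg h
  have ha := h.pos
  rcases le_total 1 a with h4 | h4
  · rw [min_eq_left h4]
    norm_num
  · rw [min_eq_right h4] at h2 ⊢
    have h5 : (∑ j ∈ range 6, l j) ^ 2 ≤ (18 * a) ^ 2 := pow_le_pow_left₀ h3 h2 2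
    have h6 : 4 * π * (A0 * a) ≤ 324 * a * a := by nlinarith
    have h7 : (4 * π * A0) * a ≤ (324 * a) * a := by linarith
    have h8 : 4 * π * A0 ≤ 324 * a := le_of_mul_le_mul_right h7 ha
    have h9 := A0_low
    have h10 := Real.pi_gt_d2
    have h11 : (3.14 : ℝ) * 2.598 ≤ π * A0 :=
      mul_le_mul h10.le h9.le (by norm_num) Real.pi_pos.le
    norm_num at h11 ⊢
    linarith

theorem gap (h : Hex a P l y) (hD : dfc a l y ≤ 1 / 1000) :
    0.05 ≤ A0 * min 1 a - A0 * ∑ j ∈ range 6, y j := by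
  by_contra hc
  push Not at hc
  have h1 := (nonneg_in h.ff (range 6) (Finset.Subset.refl _) (l_three h)).1
  have h2 := m_low h
  have h3 := A0_low
  have h4 := Real.pi_gt_d2
  unfold dfc at hD
  generalize min 1 a = m at *
  generalize ∑ j ∈ range 6, y j = Y at *
  generalize ∑ j ∈ range 6, l j = L at *
  have h5 : A0 * Y ≤ |A0 * Y| := le_abs_self _
  have h6 : (2.598 : ℝ) * 0.1 ≤ A0 * m := mul_le_mul h3.le h2 (by norm_num) (by linarith)
  have h7 : 0.2 < A0 * Y := by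
    norm_num at hc h6 ⊢
    linarith
  have h8 : 2 * π / 3 * (A0 * Y) ≤ L :=
    (mul_le_mul_of_nonneg_left h5 (by positivity)).trans h1
  have h9 : 2 * 3.14 / 3 * (A0 * Y) ≤ 2 * π / 3 * (A0 * Y) := by
    refine mul_le_mul_of_nonneg_right ?_ (by linarith)
    linarith
  -- multiply everything by `A0`
  have h10 : A0 < 2.6 := by
    unfold A0
    have : √(3 : ℝ) < 1.7325 := by
      rw [Real.sqrt_lt (by norm_num) (by norm_num)]
      norm_num
    linarith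
  have h11 : A0 * L ≤ A0 * (1 / 1000 + 6 * m - 3 * Y) :=
    mul_le_mul_of_nonneg_left (by linarith) (by linarith)
  have h12 : A0 * (2 * 3.14 / 3 * (A0 * Y)) ≤ A0 * L :=
    mul_le_mul_of_nonneg_left (h9.trans h8) (by linarith)
  have h13 : 2.598 * (2 * 3.14 / 3 * (A0 * Y)) ≤ A0 * (2 * 3.14 / 3 * (A0 * Y)) :=
    mul_le_mul_of_nonneg_right h3.le (by nlinarith)
  norm_num at *
  nlinarith

theorem brackets (h : Hex a P l y) (hD : dfc a l y ≤ 1 / 1000) :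
    (∑ j ∈ range 6, sd P j) ^ 2 - 8 * √3 * pa P ≤ 36 * dfc a l y ∧
    (∑ j ∈ range 6, l j) ^ 2 - (∑ j ∈ range 6, sd P j) ^ 2 -
      4 / 3 * (A0 * ∑ j ∈ range 6, y j) ^ 2 ≤ 36 * dfc a l y ∧
    a - min 1 a ≤ dfc a l y ∧ 1 - min 1 a ≤ 52 * dfc a l y := by
  have hg := gap h hD
  have hD0 := df_nonneg h
  have hm0 := m_low h
  have hm1 : min 1 a ≤ 1 := min_le_left _ _
  have hma : min 1 a ≤ a := min_le_right _ _
  have hL := L_le h
  have hL0 := L_nonneg h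
  have hB3 := mink h.ff (range 6) (Finset.Subset.refl _) (l_three h)
  have hB1 : 0 ≤ (∑ j ∈ range 6, sd P j) ^ 2 - 8 * √3 * pa P := by
    have h1 := poly_side h.closed (k := 0) (by simp)
    have h2 := sq_nonneg (sd P 0 - (∑ j ∈ range 6, sd P j) / 6)
    linarith
  have hpa := h.area
  have hdef : dfc a l y = ∑ j ∈ range 6, l j + 3 * ∑ j ∈ range 6, y j - 6 * min 1 a := rfl
  generalize dfc a l y = D at *
  generalize min 1 a = m at *
  generalize ∑ j ∈ range 6, y j = Y at *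
  generalize ∑ j ∈ range 6, l j = L at *
  generalize ∑ j ∈ range 6, sd P j = S at *
  rw [← hpa] at hB1 ⊢
  have hs := sqrt3_low
  have hs2 := sqrt3_sq
  have hA : A0 = 3 * √3 / 2 := rfl
  -- `(8 √3) A0 = 36`
  have h36 : 8 * √3 * A0 = 36 := by
    rw [hA]
    nlinarith
  have hA2 : 4 / 3 * A0 ^ 2 = 9 := by
    rw [hA]
    nlinarith
  -- `L = D + 6 m - 3 Y`
  have e1 : L ^ 2 - (6 * m - 3 * Y) ^ 2 = D * (2 * L - D) := by
    rw [hdef]
    ring
  have e2 : L ^ 2 - (6 * m - 3 * Y) ^ 2 =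
      (L ^ 2 - S ^ 2 - 4 / 3 * (A0 * Y) ^ 2) + (S ^ 2 - 8 * √3 * (A0 * (a - Y))) +
        (36 * (a - m) + 8 * √3 * ((1 - m) * (A0 * m - A0 * Y))) := by
    have q1 : 8 * √3 * (A0 * (a - Y)) = 36 * (a - Y) := by
      rw [← mul_assoc, h36]
    have q2 : 8 * √3 * ((1 - m) * (A0 * m - A0 * Y)) = 36 * ((1 - m) * (m - Y)) := by
      have : 8 * √3 * ((1 - m) * (A0 * m - A0 * Y)) = (8 * √3 * A0) * ((1 - m) * (m - Y)) := by
        ring
      rw [this, h36]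
    have q3 : 4 / 3 * (A0 * Y) ^ 2 = 9 * Y ^ 2 := by
      have : 4 / 3 * (A0 * Y) ^ 2 = (4 / 3 * A0 ^ 2) * Y ^ 2 := by ring
      rw [this, hA2]
    rw [q1, q2, q3]
    ring
  have e3 : D * (2 * L - D) ≤ 36 * D := by
    nlinarith
  have hgap2 : 0.05 * (1 - m) ≤ (1 - m) * (A0 * m - A0 * Y) := by
    have := mul_le_mul_of_nonneg_left hg (sub_nonneg.2 hm1)
    linarith
  have hB2 : 8 * √3 * (0.05 * (1 - m)) ≤ 8 * √3 * ((1 - m) * (A0 * m - A0 * Y)) :=
    mul_le_mul_of_nonneg_left hgap2 (by positivity)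
  have hB2' : 8 * 1.732 * (0.05 * (1 - m)) ≤ 8 * √3 * (0.05 * (1 - m)) := by
    refine mul_le_mul_of_nonneg_right (by linarith) ?_
    have := sub_nonneg.2 hm1
    positivity
  have hB2'' : 0 ≤ 8 * 1.732 * (0.05 * (1 - m)) := by
    have := sub_nonneg.2 hm1
    positivity
  refine ⟨?_, ?_, ?_, ?_⟩
  · linarith
  · linarith
  · linarith
  · nlinarith

end Pool.Agent.Helper38.HS
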