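import Pool.Agent.Helper38.LC3.Inter0
import Pool.Agent.Helper38.RG.Defs

/-!
# Stability of the regular hexagon (MP_0e6ba8_gt, project LC3, block HS): definitions
-/

namespace Pool.Agent.Helper38.HS

open Finset Real Pool.Agent.Helper98.LC Pool.Agent.Helper38.LC2

/-- the length of the side `j` of the chord polygon -/
noncomputable def sd (P : ℕ → ℂ) (j : ℕ) : ℝ := ‖P (j + 1) - P j‖

/-- the area of the chord polygon -/
noncomputable def pa (P : ℕ → ℂ) : ℝ := (∑ j ∈ range 6, cr (P j) (P (j + 1))) / 2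

/-- a face with six edges and without outer edges; the corners are `P 0, …, P 5`, and `P 6 = P 0` -/
structure Hex (a : ℝ) (P : ℕ → ℂ) (l y : ℕ → ℝ) : Prop where
  closed : P 6 = P 0
  pos : 0 < a
  ff : FaceFacts2 (range 6) a l (sd P) y
  area : A0 * (a - ∑ j ∈ range 6, y j) = pa P
  cap : ∀ j ∈ range 6, l j ≤ 3 * min 1 a

/-- the deficit of the face -/
noncomputable def dfc (a : ℝ) (l y : ℕ → ℝ) : ℝ :=
  ∑ j ∈ range 6, l j + 3 * ∑ j ∈ range 6, y j - 6 * min 1 a

end Pool.Agent.Helper38.HS
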