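import Pool.Agent.Helper38.HS.Defs

/-!
# HS-05: stability in the triangle inequality

`W = ∑ w j`, `L = ∑ l j`.  `‖W‖ > 0` as `‖W‖² ≥ L² - e > 0`.  `L - ‖W‖ = (L² - ‖W‖²)/(L + ‖W‖) ≤ e/L ≤ e/5`, and
`L - ‖W‖ = ∑ (l j - Re (w j conj W)/‖W‖)` with all summands `≥ 0` (`Re (w conj W) ≤ ‖w‖ ‖W‖ ≤ l ‖W‖`).
So for every `j`: `l j - ‖w j‖ ≤ e/5` and `‖w j‖ ‖W‖ - Re (w j conj W) ≤ ‖W‖ e/5`;
`cr (w j) W ^2 = ‖w j‖² ‖W‖² - (Re (w j conj W))² = (‖w‖‖W‖ - Re)(‖w‖‖W‖ + Re) ≤ (‖W‖ e/5)(2 * 3 ‖W‖) ≤ (6/5) e L²` (`‖W‖ ≤ L`).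
-/

namespace Pool.Agent.Helper38.HS

open Finset Real Pool.Agent.Helper98.LC Pool.Agent.Helper38.LC2

private theorem mk_sq (w : ℂ) : ‖w‖ ^ 2 = w.re * w.re + w.im * w.im := by
  rw [← Complex.normSq_eq_norm_sq, Complex.normSq_apply]

private theorem mk_dt_le (w W : ℂ) : |w.re * W.re + w.im * W.im| ≤ ‖w‖ * ‖W‖ := by
  apply abs_le_of_sq_le_sq
  · rw [mul_pow, mk_sq, mk_sq]
    nlinarith [sq_nonneg (w.re * W.im - w.im * W.re)]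
  · positivity

private theorem mk_cr (w W : ℂ) : cr w W ^ 2 =
    (‖w‖ * ‖W‖ - (w.re * W.re + w.im * W.im)) * (‖w‖ * ‖W‖ + (w.re * W.re + w.im * W.im)) := by
  have h : (‖w‖ * ‖W‖) ^ 2 = (w.re * w.re + w.im * w.im) * (W.re * W.re + W.im * W.im) := by
    rw [mul_pow, mk_sq, mk_sq]
  have h2 : (‖w‖ * ‖W‖ - (w.re * W.re + w.im * W.im)) * (‖w‖ * ‖W‖ + (w.re * W.re + w.im * W.im))
      = (‖w‖ * ‖W‖) ^ 2 - (w.re * W.re + w.im * W.im) ^ 2 := by ring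
  rw [h2, h, cr]
  ring

theorem mink_stab {w : ℕ → ℂ} {l : ℕ → ℝ} {e : ℝ} (hw : ∀ j ∈ range 6, ‖w j‖ ≤ l j)
    (hl : ∀ j ∈ range 6, l j ≤ 3) (hL : 5 ≤ ∑ j ∈ range 6, l j) (he : e ≤ 1)
    (h : (∑ j ∈ range 6, l j) ^ 2 - ‖∑ j ∈ range 6, w j‖ ^ 2 ≤ e) {k : ℕ} (hk : k ∈ range 6) :
    l k - ‖w k‖ ≤ e / 5 ∧
      cr (w k) (∑ j ∈ range 6, w j) ^ 2 ≤ 6 / 5 * e * (∑ j ∈ range 6, l j) ^ 2 := by
  set W : ℂ := ∑ j ∈ range 6, w j with hW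
  set L : ℝ := ∑ j ∈ range 6, l j with hLdef
  have hNL : ‖W‖ ≤ L := (norm_sum_le _ _).trans (Finset.sum_le_sum hw)
  have hN0 : 0 ≤ ‖W‖ := norm_nonneg _
  have he0 : 0 ≤ e := by nlinarith
  have hNpos : 0 < ‖W‖ := by
    rcases hN0.eq_or_lt with h0 | h0
    · rw [← h0] at h
      nlinarith
    · exact h0
  have h5 : L - ‖W‖ ≤ e / 5 := by
    have h1 : (L - ‖W‖) * 5 ≤ (L - ‖W‖) * (L + ‖W‖) :=
      mul_le_mul_of_nonneg_left (by linarith) (by linarith)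
    have h2 : (L - ‖W‖) * (L + ‖W‖) = L ^ 2 - ‖W‖ ^ 2 := by ring
    linarith
  have hdt : ∀ j, (w j).re * W.re + (w j).im * W.im ≤ ‖w j‖ * ‖W‖ := fun j =>
    (le_abs_self _).trans (mk_dt_le _ _)
  have hsum : ∑ j ∈ range 6, (‖W‖ * l j - ((w j).re * W.re + (w j).im * W.im)) =
      ‖W‖ * (L - ‖W‖) := by
    rw [Finset.sum_sub_distrib, ← Finset.mul_sum, Finset.sum_add_distrib, ← Finset.sum_mul,
      ← Finset.sum_mul]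
    have h1 : ∑ j ∈ range 6, (w j).re = W.re := by rw [hW, Complex.re_sum]
    have h2 : ∑ j ∈ range 6, (w j).im = W.im := by rw [hW, Complex.im_sum]
    rw [h1, h2, ← mk_sq]
    ring
  have hterm : ∀ j ∈ range 6, 0 ≤ ‖W‖ * l j - ((w j).re * W.re + (w j).im * W.im) := by
    intro j hj
    have h1 := hdt j
    have h2 : ‖w j‖ * ‖W‖ ≤ l j * ‖W‖ := mul_le_mul_of_nonneg_right (hw j hj) hN0
    linarith
  have hk1 : ‖W‖ * l k - ((w k).re * W.re + (w k).im * W.im) ≤ ‖W‖ * (e / 5) := by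
    refine (Finset.single_le_sum (f := fun j => ‖W‖ * l j - ((w j).re * W.re + (w j).im * W.im))
      hterm hk).trans ?_
    rw [hsum]
    exact mul_le_mul_of_nonneg_left h5 hN0
  have hdk := hdt k
  constructor
  · have h1 : ‖W‖ * (l k - ‖w k‖) ≤ ‖W‖ * (e / 5) := by linarith
    exact le_of_mul_le_mul_left h1 hNpos
  · have h1 : ‖w k‖ * ‖W‖ - ((w k).re * W.re + (w k).im * W.im) ≤ ‖W‖ * (e / 5) := by
      have h2 : ‖w k‖ * ‖W‖ ≤ l k * ‖W‖ := mul_le_mul_of_nonneg_right (hw k hk) hN0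
      linarith
    have h3 : ‖w k‖ ≤ 3 := (hw k hk).trans (hl k hk)
    have h4 : ‖w k‖ * ‖W‖ ≤ 3 * ‖W‖ := mul_le_mul_of_nonneg_right h3 hN0
    have h6 : 0 ≤ ‖w k‖ * ‖W‖ + ((w k).re * W.re + (w k).im * W.im) := by
      have := (abs_le.1 (mk_dt_le (w k) W)).1
      linarith
    rw [mk_cr]
    calc (‖w k‖ * ‖W‖ - ((w k).re * W.re + (w k).im * W.im)) *
          (‖w k‖ * ‖W‖ + ((w k).re * W.re + (w k).im * W.im))
        ≤ (‖W‖ * (e / 5)) * (6 * ‖W‖) :=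
          mul_le_mul h1 (by linarith) h6 (by positivity)
      _ = 6 / 5 * e * ‖W‖ ^ 2 := by ring
      _ ≤ 6 / 5 * e * L ^ 2 :=
          mul_le_mul_of_nonneg_left (pow_le_pow_left₀ hN0 hNL 2) (by positivity)

end Pool.Agent.Helper38.HS
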