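import Pool.Agent.Helper38.HS.Brackets
import Pool.Agent.Helper38.HS.Mink

/-!
# HS-06: almost optimal faces have no long edges

`D = dfc ≤ 10^(-11)`, `r = √D` (`r ≤ 3.2e-6`), `S`, `L`, `X`, `m` as in HS-04, `x j = A0 y j`, `be = 2/√3`, `w j = ⟨sd P j, be * x j⟩`, `‖w j‖ ≤ l j` (`edge_sq`), `∑ w = ⟨S, be X⟩`, `‖∑ w‖² = S² + (4/3) X²`.
`brackets`: `e = 36 D` in `mink_stab` (`L ≥ 5`: `perim`: `L ≥ 5.71387 √a`, `a ≥ 1 - 52 D`).
* `|sd P j - S/6| ≤ √(18 * 36 D) ≤ 25.5 r` (`poly_side`).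
* `cr (w j) W = be (sd_j X - x_j S)`: `|sd_j X - x_j S| ≤ √(1.2 * 36) r * 18 / 1.1547 ≤ 102.5 r`; `|X| ≤ 3 * 18/(2π) ≤ 8.6` (`nonneg_in`), `S ≥ .83` (`S² ≥ 8√3 (A0 m - X) ≥ 8√3 * .05`, `gap`, `a ≥ m`,
  `brackets` not needed; use `poly_side` for `0 ≤ S² - 8√3 pa P`), so `|x_j - X/6| ≤ (102.5 + 25.5 * 8.6) r/.83 ≤ 388 r`.
* `|l j - ‖w j‖| ≤ 7.2 D`, `|‖w j‖ - ‖W‖/6| ≤ ‖w j - W/6‖ ≤ 25.5 r + 1.1547 * 388 r ≤ 474 r`, `|‖W‖ - L| ≤ 36 D/5`; `L = 6 m - be X + D`, `1 - m ≤ 52 D`: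
  `|l j - (1 - be x_j)| ≤ 474 r + 1.1547 * 388 r + 70 D ≤ 930 r ≤ .01`.
* `edge_half`: `2 π |x_j| ≤ l j²`, `l j ≤ 3`.  `x_j ≥ 0`: `l j ≤ 1.01`.  `x_j = -x < 0`: `x ≤ 2.01/1.1547 ≤ 1.741`, `6.283 x ≤ (1.01 + 1.1548 x)²`, so `x ≤ .29` (on `[.29, 1.741]` the convex function
  `(1.01 + 1.1548 x)² - 6.283 x` is negative at both ends: at `.29`: `-.0035`.., check: `(1.01 + .33489)² = 1.80873`, `6.283 * .29 = 1.82207`; at `1.741`: `9.12 - 10.93`), and `l j ≤ 1.01 + 1.1548 * .29 ≤ 2`.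
-/

namespace Pool.Agent.Helper38.HS

open Finset Real Pool.Agent.Helper98.LC Pool.Agent.Helper38.LC2

variable {a : ℝ} {P : ℕ → ℂ} {l y : ℕ → ℝ}

/-- the last step: `l ≤ 1.01 - be x` and `2 π |x| ≤ l²`, `l ≤ 3` -/
private theorem last_step {lk x : ℝ} (hl0 : 0 ≤ lk) (hl3 : lk ≤ 3) (h1 : lk ≤ 1.01 - be * x)
    (h2 : 2 * π * |x| ≤ lk ^ 2) : lk ≤ 2 := by
  have hb := be_num
  have hpi := Real.pi_gt_d6
  rcases le_or_gt 0 x with hx | hx
  · have h3 : 0 ≤ be * x := mul_nonneg be_pos.le hx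
    linarith
  · rw [abs_of_neg hx] at h2
    obtain ⟨t, ht⟩ : ∃ t, t = -x := ⟨_, rfl⟩
    have ht0 : 0 < t := by rw [ht]; linarith
    rw [← ht] at h2
    have h3 : lk ≤ 1.01 + 1.1548 * t := by
      have h4 : be * t ≤ 1.1548 * t := mul_le_mul_of_nonneg_right (by linarith [hb.2]) ht0.le
      have h5 : be * x = - (be * t) := by rw [ht]; ring
      linarith
    have h4 : 6.283 * t ≤ 2 * π * t := mul_le_mul_of_nonneg_right (by linarith) ht0.le
    have h5 : t ≤ 1.44 := by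
      have : lk ^ 2 ≤ 9 := by nlinarith
      linarith
    have h6 : lk ^ 2 ≤ (1.01 + 1.1548 * t) ^ 2 := pow_le_pow_left₀ hl0 h3 2
    by_contra hc
    have h7 : 0.29 ≤ t := by linarith
    nlinarith [mul_nonneg (sub_nonneg.2 h7) (sub_nonneg.2 h5)]

/-- the numerical part -/
private theorem num_step {D s S X x L lk m nw nW : ℝ} (hD0 : 0 ≤ D) (hD : D ≤ 1 / 10 ^ 11)
    (hs : (s - S / 6) ^ 2 ≤ 648 * D)
    (hcr : (be * (s * X - x * S)) ^ 2 ≤ 6 / 5 * (36 * D) * L ^ 2) (hL0 : 0 ≤ L) (hL : L ≤ 18)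
    (hX : |X| ≤ 8.6) (hS : 0.83 ≤ S) (hlk : lk - nw ≤ 36 * D / 5)
    (hnw : nw ≤ nW / 6 + |s - S / 6| + be * |x - X / 6|) (hnW : nW ≤ L)
    (hLe : L = 6 * m - be * X + D) (hm : m ≤ 1) : lk ≤ 1.01 - be * x := by
  have hb := be_num
  have h1 : |s - S / 6| ≤ 0.0001 := by
    refine abs_le_of_sq_le_sq (le_trans hs ?_) (by norm_num)
    have : 648 * D ≤ 648 * (1 / 10 ^ 11) := by linarith
    refine this.trans (by norm_num)
  have h2 : |s * X - x * S| ≤ 0.0004 := by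
    refine abs_le_of_sq_le_sq ?_ (by norm_num)
    have h3 : L ^ 2 ≤ 324 := by nlinarith
    have h4 : (be * (s * X - x * S)) ^ 2 = 4 / 3 * (s * X - x * S) ^ 2 := by
      rw [mul_pow, be_sq]
    rw [h4] at hcr
    have h5 : 6 / 5 * (36 * D) * L ^ 2 ≤ 6 / 5 * (36 * (1 / 10 ^ 11)) * 324 := by
      refine mul_le_mul (by linarith) h3 (sq_nonneg _) (by norm_num)
    have h6 : (6 / 5 * (36 * (1 / 10 ^ 11)) * 324 : ℝ) ≤ 4 / 3 * 0.0004 ^ 2 := by norm_num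
    linarith
  have h3 : |x - X / 6| * S ≤ 0.00126 := by
    have h4 : |x - X / 6| * S = |(x - X / 6) * S| := by
      rw [abs_mul, abs_of_nonneg (by linarith : (0 : ℝ) ≤ S)]
    have h5 : (x - X / 6) * S = X * (s - S / 6) - (s * X - x * S) := by ring
    have h6 : |X * (s - S / 6)| ≤ 8.6 * 0.0001 := by
      rw [abs_mul]
      exact mul_le_mul hX h1 (abs_nonneg _) (by norm_num)
    rw [h4, h5]
    have h7 := abs_sub (X * (s - S / 6)) (s * X - x * S)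
    linarith
  have h4 : |x - X / 6| ≤ 0.0016 := by
    have h5 : |x - X / 6| * 0.83 ≤ |x - X / 6| * S := mul_le_mul_of_nonneg_left hS (abs_nonneg _)
    linarith
  have h5 : be * |x - X / 6| ≤ 1.1548 * 0.0016 :=
    mul_le_mul (by linarith [hb.2]) h4 (abs_nonneg _) (by norm_num)
  have h6 : be * x - be * X / 6 ≤ be * |x - X / 6| := by
    have h7 : be * x - be * X / 6 = be * (x - X / 6) := by ring
    rw [h7]
    exact mul_le_mul_of_nonneg_left (le_abs_self _) be_pos.le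
  have h7 : D ≤ 0.0001 := hD.trans (by norm_num)
  linarith

theorem no_long (h : Hex a P l y) (hD : dfc a l y ≤ 1 / 10 ^ 11) : ∀ j ∈ range 6, l j ≤ 2 := by
  intro k hk
  have hD0 := df_nonneg h
  have hD1 : dfc a l y ≤ 1 / 1000 := hD.trans (by norm_num)
  obtain ⟨hB1, hB3, ham, h1m⟩ := brackets h hD1
  have hgap := gap h hD1
  have hin3 : ∀ e ∈ range 6, l e ≤ 3 := in_three h.cap
  have hm1 : min 1 a ≤ 1 := min_le_left _ _
  have hma : min 1 a ≤ a := min_le_right _ _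
  have hX := (nonneg_in h.ff (range 6) (Subset.refl _) hin3).1
  have hper := perim h.ff h.pos.le
  have hps := poly_side h.closed hk
  have hl0 : ∀ e ∈ range 6, 0 ≤ l e := fun e he =>
    (h.ff.ch_nonneg e he).trans (h.ff.ch_le e he)
  have hL18 : ∑ j ∈ range 6, l j ≤ 18 := by
    have h1 := Finset.sum_le_card_nsmul (range 6) l 3 hin3
    rw [card_range, nsmul_eq_mul] at h1
    norm_num at h1
    exact h1
  have hL0 : 0 ≤ ∑ j ∈ range 6, l j := Finset.sum_nonneg hl0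
  -- the vectors
  obtain ⟨w, hwd⟩ : ∃ w : ℕ → ℂ, w = fun j => (⟨sd P j, be * (A0 * y j)⟩ : ℂ) := ⟨_, rfl⟩
  have hwre : ∀ j, (w j).re = sd P j := fun j => by rw [hwd]
  have hwim : ∀ j, (w j).im = be * (A0 * y j) := fun j => by rw [hwd]
  have hw : ∀ j ∈ range 6, ‖w j‖ ≤ l j := by
    intro j hj
    have h1 := edge_sq h.ff hj (hin3 j hj)
    have h2 : ‖w j‖ ^ 2 ≤ l j ^ 2 := by
      rw [Complex.sq_norm, Complex.normSq_apply, hwre, hwim]
      have h3 : be * (A0 * y j) * (be * (A0 * y j)) = be ^ 2 * (A0 * y j) ^ 2 := by ring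
      rw [h3, be_sq]
      nlinarith
    have h3 := abs_le_of_sq_le_sq h2 (hl0 j hj)
    exact (le_abs_self _).trans h3
  have hWre : (∑ j ∈ range 6, w j).re = ∑ j ∈ range 6, sd P j := by
    rw [Complex.re_sum]
    exact Finset.sum_congr rfl fun j _ => hwre j
  have hWim : (∑ j ∈ range 6, w j).im = be * (A0 * ∑ j ∈ range 6, y j) := by
    rw [Complex.im_sum, Finset.mul_sum, Finset.mul_sum]
    exact Finset.sum_congr rfl fun j _ => hwim j
  have hWsq : ‖∑ j ∈ range 6, w j‖ ^ 2 =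
      (∑ j ∈ range 6, sd P j) ^ 2 + 4 / 3 * (A0 * ∑ j ∈ range 6, y j) ^ 2 := by
    rw [Complex.sq_norm, Complex.normSq_apply, hWre, hWim]
    have h3 : be * (A0 * ∑ j ∈ range 6, y j) * (be * (A0 * ∑ j ∈ range 6, y j)) =
        be ^ 2 * (A0 * ∑ j ∈ range 6, y j) ^ 2 := by ring
    rw [h3, be_sq]
    ring
  have hL5 : 5 ≤ ∑ j ∈ range 6, l j := by
    have h1 : 0.9 ≤ √a := by
      apply Real.le_sqrt_of_sq_le
      norm_num
      linarith
    linarith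
  have hstab := mink_stab (w := w) (l := l) (e := 36 * dfc a l y) hw hin3 hL5 (by linarith)
    (by rw [hWsq]; linarith) hk
  have hWL : ‖∑ j ∈ range 6, w j‖ ≤ ∑ j ∈ range 6, l j :=
    (norm_sum_le _ _).trans (Finset.sum_le_sum hw)
  have hcr : cr (w k) (∑ j ∈ range 6, w j) =
      be * (sd P k * (A0 * ∑ j ∈ range 6, y j) - A0 * y k * ∑ j ∈ range 6, sd P j) := by
    unfold cr
    rw [hWre, hWim, hwre, hwim]
    ring
  have hnw : ‖w k‖ ≤ ‖∑ j ∈ range 6, w j‖ / 6 + |sd P k - (∑ j ∈ range 6, sd P j) / 6| +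
      be * |A0 * y k - (A0 * ∑ j ∈ range 6, y j) / 6| := by
    have h1 : w k = (∑ j ∈ range 6, w j) / 6 + (w k - (∑ j ∈ range 6, w j) / 6) := by ring
    have h2 : ‖(∑ j ∈ range 6, w j) / 6‖ = ‖∑ j ∈ range 6, w j‖ / 6 := by
      rw [norm_div]
      norm_num
    have h3 : ‖w k - (∑ j ∈ range 6, w j) / 6‖ ≤ |sd P k - (∑ j ∈ range 6, sd P j) / 6| +
        be * |A0 * y k - (A0 * ∑ j ∈ range 6, y j) / 6| := by
      refine (Complex.norm_le_abs_re_add_abs_im _).trans ?_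
      have h4 : (w k - (∑ j ∈ range 6, w j) / 6).re = sd P k - (∑ j ∈ range 6, sd P j) / 6 := by
        rw [Complex.sub_re, hwre]
        have : ((∑ j ∈ range 6, w j) / 6).re = (∑ j ∈ range 6, w j).re / 6 := by
          have h6 := Complex.div_ofNat_re (∑ j ∈ range 6, w j) 6
          simpa using h6
        rw [this, hWre]
      have h5 : (w k - (∑ j ∈ range 6, w j) / 6).im =
          be * (A0 * y k - (A0 * ∑ j ∈ range 6, y j) / 6) := by
        rw [Complex.sub_im, hwim]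
        have : ((∑ j ∈ range 6, w j) / 6).im = (∑ j ∈ range 6, w j).im / 6 := by
          have h6 := Complex.div_ofNat_im (∑ j ∈ range 6, w j) 6
          simpa using h6
        rw [this, hWim]
        ring
      rw [h4, h5, abs_mul, abs_of_pos be_pos]
    calc ‖w k‖ = ‖(∑ j ∈ range 6, w j) / 6 + (w k - (∑ j ∈ range 6, w j) / 6)‖ := by rw [← h1]
      _ ≤ ‖(∑ j ∈ range 6, w j) / 6‖ + ‖w k - (∑ j ∈ range 6, w j) / 6‖ := norm_add_le _ _
      _ ≤ _ := by rw [h2]; linarith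
  have hXabs : |A0 * ∑ j ∈ range 6, y j| ≤ 8.6 := by
    have hpi := Real.pi_gt_d6
    have h1 : 2 * 3.141592 / 3 * |A0 * ∑ j ∈ range 6, y j| ≤
        2 * π / 3 * |A0 * ∑ j ∈ range 6, y j| :=
      mul_le_mul_of_nonneg_right (by linarith) (abs_nonneg _)
    have h2 : 2 * 3.141592 / 3 * |A0 * ∑ j ∈ range 6, y j| ≤ 18 := by linarith
    linarith
  have hS0 : 0 ≤ ∑ j ∈ range 6, sd P j := Finset.sum_nonneg fun j _ => norm_nonneg _
  have hS : 0.83 ≤ ∑ j ∈ range 6, sd P j := by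
    have h1 : 0 ≤ (∑ j ∈ range 6, sd P j) ^ 2 - 8 * √3 * pa P := by
      have := sq_nonneg (sd P k - (∑ j ∈ range 6, sd P j) / 6)
      linarith
    have h2 : 0.05 ≤ pa P := by
      rw [← h.area]
      have h3 : A0 * min 1 a ≤ A0 * a := mul_le_mul_of_nonneg_left hma A0_pos.le
      have h4 : A0 * (a - ∑ j ∈ range 6, y j) = A0 * a - A0 * ∑ j ∈ range 6, y j := by ring
      linarith
    have h3 : (1.73 : ℝ) ≤ √3 := by
      apply Real.le_sqrt_of_sq_le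
      norm_num
    have h4 : 8 * 1.73 * 0.05 ≤ 8 * √3 * pa P :=
      mul_le_mul (by linarith) h2 (by norm_num) (by positivity)
    by_contra hc
    push Not at hc
    nlinarith
  have hLe : ∑ j ∈ range 6, l j = 6 * min 1 a - be * (A0 * ∑ j ∈ range 6, y j) + dfc a l y := by
    unfold dfc
    rw [← mul_assoc be, be_A0]
    ring
  have hfin := num_step (D := dfc a l y) (s := sd P k) (S := ∑ j ∈ range 6, sd P j)
    (X := A0 * ∑ j ∈ range 6, y j) (x := A0 * y k) (L := ∑ j ∈ range 6, l j) (lk := l k)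
    (m := min 1 a) (nw := ‖w k‖) (nW := ‖∑ j ∈ range 6, w j‖) hD0 hD
    (hps.trans (by linarith)) (by rw [← hcr]; exact hstab.2) hL0 hL18 hXabs hS hstab.1 hnw hWL
    hLe hm1
  refine last_step (hl0 k hk) (hin3 k hk) hfin ?_
  have h1 := edge_half h.ff hk
  rwa [abs_mul, abs_of_pos A0_pos]

end Pool.Agent.Helper38.HS
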