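import Pool.Agent.Helper38.HS.Slack
import Pool.Agent.Helper38.HS.Atan

/-!
# HS-03: a hexagon with almost optimal isoperimetric quotient is almost regular

`S = ∑ sd P j`, `b = S² - 8 √3 pa P`.  `S = 0`: all sides are `0`, `pa P = 0`.  Let `S > 0`, `x j = 6 sd P j / S ∈ [0, 6]`, `∑ x = 6`.
For `0 < ε ≤ 1/10` let `t j = (x j + ε)/(1 + ε) - 1 ∈ [-1, 5]`, `∑ t = 0`, `t j = (x j - 1)/(1 + ε)`, `φ j = arctan ((1 + t j)/√3) > 0`.
* `∑ φ ≤ π - ∑ t²/30 ≤ π` (`atan_tangent`), `τ = π - ∑ φ ≥ ∑ t²/30`; `τ ≤ 1.86`: `∑ φ ≥ arctan (6/√3) - tiny`: simplest: some `x j ≥ 1`, so `φ j ≥ π/6`, and if all other `x` are `0` then `x j = 6`..; use instead: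
  `arctan u ≥ u * arctan (6/√3) / (6/√3)` for `0 ≤ u ≤ 6/√3` (concavity on `[0, ∞)`), so `∑ φ ≥ 6 * arctan (6/√3)/6 ≥ 1.289` (`∑ (1 + t j) = 6`, `atan_six`), `τ ≤ π - 1.289 ≤ 1.86`.
* `ct (φ j) = √3/(1 + t j) = √3 (1+ε)/(x j + ε)`, so `ct (φ j) sd² ≤ √3 (1+ε) (S/6) sd`, sum `≤ (1+ε) √3 S²/6`, and so `∑ ct sd² - 4 pa P ≤ (b + ε S²)/(2√3)` (`√3/6 = 1/(2√3)`, `8 √3 = 4 * 2√3`).
* `slackA` for a side `k` with `sd P k ≥ S/6`: `(τ/2) (S/6)² ≤ sin τ (S/6)² ≤ (b + ε S²)/(2√3)` (`sin (∑ φ) = sin τ`), so `∑ t² ≤ 30 τ ≤ 30 * 2 * 36/(2√3) (b + ε S²)/S² ≤ 624 (b + ε S²)/S²`;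
  `sd P k - S/6 = (S/6)(x k - 1) = (S/6)(1+ε) t k`: `(sd P k - S/6)² ≤ (1+ε)² 17.4 (b + ε S²)`.  Let `ε → 0`: `poly_side`.
* `slackB`: `|sin φ - 1/2| ≤ |φ - π/6| ≤ .578 |t|` (`atan_lip`), `‖e^{i(φ0+φ1)} - om‖ ≤ |φ0 - π/6| + |φ1 - π/6|` (`om = e^{iπ/3}`), so with `T = max |t 0|, |t 1|`:
  `(1/2) ‖v1 - om v0‖ ≤ √((b + ε S²)/(2√3)) + .578 T (2 sd0 + sd1)` and `T (2 sd0 + sd1)`: `sd j = (S/6) x j`, `x j ≤ (1 + T)(1+ε)`; if `T ≤ 1`: `2 sd0 + sd1 ≤ S (1+ε)`; if `T > 1` `sd0, sd1 ≤ S/2`, so in any case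
  `2 sd0 + sd1 ≤ 1.5 S (1+ε)`; `T ≤ √(624 (b + ε S²))/S`: `‖v1 - om v0‖ ≤ 2 (.54 + .578 * 1.5 * 24.98 * (1+ε)) √(b + ε S²) ≤ 45 √..`: `≤ 2100 b` for the square in the limit.
-/

namespace Pool.Agent.Helper38.HS

open Finset Real Pool.Agent.Helper98.LC Pool.Agent.Helper38.LC2

private theorem ps_arctan_add_le {u w : ℝ} (hu : 0 ≤ u) (hw : 0 ≤ w) :
    arctan (u + w) ≤ arctan u + arctan w := by
  by_cases h : u * w < 1
  · rw [arctan_add h]
    apply arctan_mono
    rw [le_div_iff₀ (by linarith)]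
    nlinarith [mul_nonneg (add_nonneg hu hw) (mul_nonneg hu hw)]
  · push Not at h
    have hu0 : 0 < u := by
      rcases hu.eq_or_lt with h0 | h0
      · rw [← h0, zero_mul] at h
        linarith
      · exact h0
    have h1 : u⁻¹ ≤ w := by
      rw [inv_le_iff_one_le_mul₀ hu0]
      linarith [mul_comm u w]
    have h2 := arctan_mono h1
    rw [arctan_inv_of_pos hu0] at h2
    have := arctan_lt_pi_div_two (u + w)
    linarith

private theorem ps_arctan_sum_le (s : Finset ℕ) {f : ℕ → ℝ} (hf : ∀ i ∈ s, 0 ≤ f i) :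
    arctan (∑ i ∈ s, f i) ≤ ∑ i ∈ s, arctan (f i) := by
  induction s using Finset.induction_on with
  | empty => simp
  | insert a s ha ih =>
    rw [Finset.sum_insert ha, Finset.sum_insert ha]
    have h1 := ih fun i hi => hf i (Finset.mem_insert_of_mem hi)
    have h2 := ps_arctan_add_le (hf a (Finset.mem_insert_self a s))
      (Finset.sum_nonneg fun i hi => hf i (Finset.mem_insert_of_mem hi))
    linarith

private theorem ps_ct_arctan {u : ℝ} (hu : 0 < u) : ct (arctan u) = 1 / u := by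
  unfold ct
  rw [cos_arctan, sin_arctan]
  have h : 0 < √(1 + u ^ 2) := Real.sqrt_pos.2 (by positivity)
  field_simp

/-- limits -/
private theorem ps_lim {q : ℝ} {F : ℝ → ℝ} (hF : Continuous F)
    (h : ∀ ε, 0 < ε → ε ≤ 1 / 10 → q ≤ F ε) : q ≤ F 0 := by
  have h1 : Filter.Tendsto F (nhdsWithin 0 (Set.Ioi 0)) (nhds (F 0)) :=
    (hF.tendsto 0).mono_left nhdsWithin_le_nhds
  refine ge_of_tendsto h1 ?_
  have h2 : Set.Iic (1 / 10 : ℝ) ∈ nhds (0 : ℝ) := Iic_mem_nhds (by norm_num)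
  filter_upwards [self_mem_nhdsWithin, nhdsWithin_le_nhds h2] with ε h3 h4
  exact h ε h3 h4

private theorem ps_setup {P : ℕ → ℂ} (hP : P 6 = P 0) {S : ℝ}
    (hS : S = ∑ j ∈ range 6, sd P j) (hS0 : 0 < S) {ε : ℝ} (hε : 0 < ε) (hε1 : ε ≤ 1 / 10) :
    ∃ φ t : ℕ → ℝ, (∀ j ∈ range 6, 0 < φ j) ∧ ∑ j ∈ range 6, φ j ≤ π ∧
      (∀ j ∈ range 6, |φ j - π / 6| ≤ 0.578 * |t j|) ∧
      (∀ j, sd P j - S / 6 = S / 6 * (1 + ε) * t j) ∧
      ∑ j ∈ range 6, ct (φ j) * sd P j ^ 2 - 4 * pa P ≤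
        (S ^ 2 - 8 * √3 * pa P + ε * S ^ 2) / (2 * √3) ∧
      (∑ j ∈ range 6, t j ^ 2) * S ^ 2 ≤ 624 * (S ^ 2 - 8 * √3 * pa P + ε * S ^ 2) := by
  have h3 : (0 : ℝ) < √3 := Real.sqrt_pos.2 (by norm_num)
  have h33 : √3 * √3 = (3 : ℝ) := Real.mul_self_sqrt (by norm_num)
  have hx0 : ∀ j, 0 ≤ sd P j := fun j => norm_nonneg _
  have hx1 : ∀ j ∈ range 6, sd P j ≤ S := fun j hj => by
    rw [hS]
    exact Finset.single_le_sum (fun i _ => hx0 i) hj
  set t : ℕ → ℝ := fun j => (6 * sd P j / S - 1) / (1 + ε) with ht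
  have hone : ∀ j, 1 + t j = (6 * sd P j / S + ε) / (1 + ε) := by
    intro j
    simp only [ht]
    field_simp
    ring
  have hpos : ∀ j, 0 < 1 + t j := by
    intro j
    rw [hone]
    have := hx0 j
    positivity
  have ht1 : ∀ j, -1 ≤ t j := fun j => by linarith [hpos j]
  have ht5 : ∀ j ∈ range 6, t j ≤ 5 := by
    intro j hj
    simp only [ht]
    rw [div_le_iff₀ (by linarith)]
    have h4 : 6 * sd P j / S ≤ 6 := by
      rw [div_le_iff₀ hS0]
      linarith [hx1 j hj]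
    nlinarith
  have hsumt : ∑ j ∈ range 6, t j = 0 := by
    simp only [ht]
    rw [← Finset.sum_div, Finset.sum_sub_distrib, ← Finset.sum_div, ← Finset.mul_sum, ← hS]
    simp
    left
    field_simp
    ring
  set φ : ℕ → ℝ := fun j => arctan ((1 + t j) / √3) with hφ
  have hu0 : ∀ j, 0 < (1 + t j) / √3 := fun j => div_pos (hpos j) h3
  have hφ0 : ∀ j ∈ range 6, 0 < φ j := fun j _ => arctan_pos.2 (hu0 j)
  -- the sum of the angles
  have hsum : ∑ j ∈ range 6, φ j ≤ π - (∑ j ∈ range 6, t j ^ 2) / 30 := by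
    have h4 : ∑ j ∈ range 6, φ j ≤
        ∑ j ∈ range 6, (π / 6 + √3 / 4 * t j - t j ^ 2 / 30) :=
      Finset.sum_le_sum fun j hj => atan_tangent (ht1 j) (ht5 j hj)
    have h5 : ∑ j ∈ range 6, t j ^ 2 / 30 = (∑ j ∈ range 6, t j ^ 2) / 30 := by
      rw [Finset.sum_div]
    rw [Finset.sum_sub_distrib, Finset.sum_add_distrib, ← Finset.mul_sum, hsumt, h5] at h4
    simp only [Finset.sum_const, Finset.card_range, nsmul_eq_mul] at h4
    push_cast at h4
    linarith
  have hsq0 : 0 ≤ ∑ j ∈ range 6, t j ^ 2 := Finset.sum_nonneg fun j _ => sq_nonneg _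
  have hlow : 1.289 ≤ ∑ j ∈ range 6, φ j := by
    have h4 := ps_arctan_sum_le (range 6) (f := fun j => (1 + t j) / √3) fun j _ => (hu0 j).le
    have h5 : ∑ j ∈ range 6, (1 + t j) / √3 = 6 / √3 := by
      rw [← Finset.sum_div, Finset.sum_add_distrib, hsumt]
      simp
    rw [h5] at h4
    exact atan_six.trans h4
  set τ : ℝ := π - ∑ j ∈ range 6, φ j with hτ
  have hτ0 : 0 ≤ τ := by
    have : (0 : ℝ) ≤ (∑ j ∈ range 6, t j ^ 2) / 30 := by positivity
    linarith
  have hτ1 : τ ≤ 1.86 := by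
    have := Real.pi_lt_d4
    rw [hτ]
    linarith
  have hsin : τ / 2 ≤ Real.sin (∑ j ∈ range 6, φ j) := by
    have h4 := sin_half hτ0 hτ1
    rwa [hτ, Real.sin_pi_sub] at h4
  have hct : ∀ j, ct (φ j) * sd P j ^ 2 ≤ √3 * (1 + ε) * (S / 6) * sd P j := by
    intro j
    have h4 : ct (φ j) = √3 / (1 + t j) := by
      simp only [hφ]
      rw [ps_ct_arctan (hu0 j)]
      have := (hpos j).ne'
      field_simp
    rw [h4, hone]
    have h5 : 0 < 6 * sd P j / S + ε := by
      have := hx0 j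
      positivity
    have h6 : √3 / ((6 * sd P j / S + ε) / (1 + ε)) * sd P j ^ 2 =
        √3 * (1 + ε) * (sd P j ^ 2 / (6 * sd P j / S + ε)) := by
      field_simp
    rw [h6, mul_assoc (√3 * (1 + ε)) (S / 6) (sd P j)]
    refine mul_le_mul_of_nonneg_left ?_ (by positivity)
    rw [div_le_iff₀ h5]
    have h7 : S / 6 * sd P j * (6 * sd P j / S + ε) = sd P j ^ 2 + S / 6 * sd P j * ε := by
      field_simp
    rw [h7]
    have h8 : 0 ≤ S / 6 * sd P j * ε := by
      have := hx0 j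
      positivity
    linarith
  have hD : ∑ j ∈ range 6, ct (φ j) * sd P j ^ 2 - 4 * pa P ≤
        (S ^ 2 - 8 * √3 * pa P + ε * S ^ 2) / (2 * √3) := by
    have h4 : ∑ j ∈ range 6, ct (φ j) * sd P j ^ 2 ≤ √3 * (1 + ε) * (S / 6) * S := by
      refine (Finset.sum_le_sum fun j _ => hct j).trans ?_
      rw [← Finset.mul_sum, ← hS]
    rw [le_div_iff₀ (by positivity)]
    have h5 : (√3 * (1 + ε) * (S / 6) * S - 4 * pa P) * (2 * √3) =
        S ^ 2 - 8 * √3 * pa P + ε * S ^ 2 := by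
      have : (√3 * (1 + ε) * (S / 6) * S - 4 * pa P) * (2 * √3) =
          (√3 * √3) * (1 + ε) * (S / 3) * S - 8 * √3 * pa P := by ring
      rw [this, h33]
      ring
    rw [← h5]
    exact mul_le_mul_of_nonneg_right (by linarith) (by positivity)
  refine ⟨φ, t, hφ0, by linarith, fun j _ => atan_lip (ht1 j), fun j => ?_, hD, ?_⟩
  · simp only [ht]
    field_simp
  · obtain ⟨k, hk, hk6⟩ : ∃ k ∈ range 6, S / 6 ≤ sd P k := by
      by_contra hcon
      push Not at hcon
      have h4 : ∑ j ∈ range 6, sd P j < ∑ j ∈ range 6, S / 6 :=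
        Finset.sum_lt_sum_of_nonempty ⟨0, by simp⟩ hcon
      rw [← hS] at h4
      simp only [Finset.sum_const, Finset.card_range, nsmul_eq_mul] at h4
      push_cast at h4
      linarith
    have h4 := slackA hP hφ0 (by linarith) hk
    have h5 : τ / 2 * (S / 6) ^ 2 ≤ (S ^ 2 - 8 * √3 * pa P + ε * S ^ 2) / (2 * √3) := by
      refine le_trans ?_ (h4.trans hD)
      exact mul_le_mul hsin (pow_le_pow_left₀ (by positivity) hk6 2) (by positivity)
        (le_trans (by positivity) hsin)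
    rw [le_div_iff₀ (by positivity)] at h5
    have h6 : ∑ j ∈ range 6, t j ^ 2 ≤ 30 * τ := by linarith
    have h7 : (1.7320 : ℝ) ≤ √3 := Real.le_sqrt_of_sq_le (by norm_num)
    have h8 : τ * S ^ 2 * 1.7320 ≤ 36 * (S ^ 2 - 8 * √3 * pa P + ε * S ^ 2) := by
      have h9 : τ * S ^ 2 * 1.7320 ≤ τ * S ^ 2 * √3 :=
        mul_le_mul_of_nonneg_left h7 (by positivity)
      nlinarith
    have h10 : (∑ j ∈ range 6, t j ^ 2) * S ^ 2 ≤ 30 * τ * S ^ 2 :=
      mul_le_mul_of_nonneg_right h6 (by positivity)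
    nlinarith

private theorem ps_zero {P : ℕ → ℂ} (hS : ∑ j ∈ range 6, sd P j = 0) :
    (∀ j ∈ range 6, P (j + 1) = P j) ∧ pa P = 0 := by
  have h1 : ∀ j ∈ range 6, sd P j = 0 :=
    (Finset.sum_eq_zero_iff_of_nonneg fun j _ => norm_nonneg _).1 hS
  have h2 : ∀ j ∈ range 6, P (j + 1) = P j := fun j hj =>
    sub_eq_zero.1 (norm_eq_zero.1 (h1 j hj))
  refine ⟨h2, ?_⟩
  unfold pa
  rw [Finset.sum_eq_zero, zero_div]
  intro j hj
  rw [h2 j hj]
  unfold cr
  ring

private theorem ps_om : RG.om = Complex.exp (Complex.I * ((π / 3 : ℝ) : ℂ)) := by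
  rw [mul_comm]
  apply Complex.ext
  · rw [Complex.exp_ofReal_mul_I_re, Real.cos_pi_div_three]
    rfl
  · rw [Complex.exp_ofReal_mul_I_im, Real.sin_pi_div_three]
    rfl

private theorem ps_norm_om (x : ℝ) :
    ‖Complex.exp (Complex.I * (x : ℂ)) - RG.om‖ ≤ |x - π / 3| := by
  have h1 : Complex.exp (Complex.I * (x : ℂ)) - RG.om =
      RG.om * (Complex.exp (Complex.I * ((x - π / 3 : ℝ) : ℂ)) - 1) := by
    rw [mul_sub, mul_one, ps_om, ← Complex.exp_add]
    congr 2
    push_cast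
    ring
  have h2 : ‖RG.om‖ = 1 := by
    rw [ps_om, mul_comm, Complex.norm_exp_ofReal_mul_I]
  rw [h1, norm_mul, h2, one_mul]
  exact Real.norm_exp_I_mul_ofReal_sub_one_le

theorem poly_side {P : ℕ → ℂ} (hP : P 6 = P 0) {k : ℕ} (hk : k ∈ range 6) :
    (sd P k - (∑ j ∈ range 6, sd P j) / 6) ^ 2 ≤
      18 * ((∑ j ∈ range 6, sd P j) ^ 2 - 8 * √3 * pa P) := by
  set S : ℝ := ∑ j ∈ range 6, sd P j with hS
  have hSnn : 0 ≤ S := Finset.sum_nonneg fun j _ => norm_nonneg _
  rcases hSnn.eq_or_lt with h0 | hS0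
  · have h1 := ps_zero (P := P) h0.symm
    have h2 : sd P k = 0 := by
      unfold sd
      rw [h1.1 k hk, sub_self, norm_zero]
    rw [← h0, h2, h1.2]
    norm_num
  · have hlim := ps_lim (q := (sd P k - S / 6) ^ 2)
      (F := fun ε => (1 + ε) ^ 2 * (17.34 * (S ^ 2 - 8 * √3 * pa P + ε * S ^ 2))) (by fun_prop)
      fun ε hε hε1 => by
        obtain ⟨φ, t, -, -, -, h4, -, h6⟩ := ps_setup hP hS hS0 hε hε1
        rw [h4 k]
        have h7 : t k ^ 2 ≤ ∑ j ∈ range 6, t j ^ 2 :=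
          Finset.single_le_sum (f := fun j => t j ^ 2) (fun j _ => sq_nonneg _) hk
        have h8 : t k ^ 2 * S ^ 2 ≤ 624 * (S ^ 2 - 8 * √3 * pa P + ε * S ^ 2) :=
          (mul_le_mul_of_nonneg_right h7 (by positivity)).trans h6
        have h9 : (S / 6 * (1 + ε) * t k) ^ 2 = (1 + ε) ^ 2 * (t k ^ 2 * S ^ 2 / 36) := by ring
        rw [h9]
        refine mul_le_mul_of_nonneg_left ?_ (by positivity)
        have h10 : 0 ≤ t k ^ 2 * S ^ 2 := by positivity
        linarith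
    have h1 : 0 ≤ (sd P k - S / 6) ^ 2 := sq_nonneg _
    simp only [add_zero, one_pow, one_mul, zero_mul] at hlim
    linarith

theorem poly_turn {P : ℕ → ℂ} (hP : P 6 = P 0) :
    ‖(P 2 - P 1) - RG.om * (P 1 - P 0)‖ ^ 2 ≤
      2100 * ((∑ j ∈ range 6, sd P j) ^ 2 - 8 * √3 * pa P) := by
  set S : ℝ := ∑ j ∈ range 6, sd P j with hS
  have hSnn : 0 ≤ S := Finset.sum_nonneg fun j _ => norm_nonneg _
  rcases hSnn.eq_or_lt with h0 | hS0
  · have h1 := ps_zero (P := P) h0.symm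
    have e1 : P 1 = P 0 := h1.1 0 (by simp)
    have e2 : P 2 = P 1 := h1.1 1 (by simp)
    rw [← h0, h1.2, e2, e1]
    simp
  · have hlim := ps_lim (q := ‖(P 2 - P 1) - RG.om * (P 1 - P 0)‖ ^ 2)
      (F := fun ε => 2100 * (S ^ 2 - 8 * √3 * pa P + ε * S ^ 2)) (by fun_prop)
      fun ε hε hε1 => by
        obtain ⟨φ, t, hφ0, hφs, hlip, h4, hD, h6⟩ := ps_setup hP hS hS0 hε hε1
        set E : ℝ := S ^ 2 - 8 * √3 * pa P + ε * S ^ 2 with hE
        have hE0 : 0 ≤ E := by
          have : 0 ≤ (∑ j ∈ range 6, t j ^ 2) * S ^ 2 :=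
            mul_nonneg (Finset.sum_nonneg fun j _ => sq_nonneg _) (by positivity)
          linarith
        have hB := (slackB hP hφ0 hφs).trans hD
        set v0 : ℂ := P 1 - P 0 with hv0
        set v1 : ℂ := P 2 - P 1 with hv1
        have hs0 : ‖v0‖ = sd P 0 := rfl
        have hs1 : ‖v1‖ = sd P 1 := rfl
        set r : ℝ := √E with hr
        have hr0 : 0 ≤ r := Real.sqrt_nonneg _
        have hrr : r ^ 2 = E := Real.sq_sqrt hE0
        set X : ℂ := (Real.sin (φ 1) : ℂ) * Complex.exp (Complex.I * ((φ 0 + φ 1 : ℝ) : ℂ)) * v0 -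
          (Real.sin (φ 0) : ℂ) * v1 with hX
        -- first term
        have hXn : ‖X‖ ≤ 0.54 * r := by
          have h7 : E / (2 * √3) ≤ (0.54 * r) ^ 2 := by
            rw [mul_pow, hrr, div_le_iff₀ (by positivity)]
            have h8 : (1.7320 : ℝ) ≤ √3 := Real.le_sqrt_of_sq_le (by norm_num)
            have h9 : E * 1.7320 ≤ E * √3 := mul_le_mul_of_nonneg_left h8 hE0
            nlinarith
          exact abs_le_of_sq_le_sq' (hB.trans h7) (by positivity) |>.2
        -- the deviations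
        have hT : ∀ j ∈ range 6, |t j| * S ≤ 25 * r := by
          intro j hj
          have h7 : t j ^ 2 ≤ ∑ j ∈ range 6, t j ^ 2 :=
            Finset.single_le_sum (f := fun j => t j ^ 2) (fun j _ => sq_nonneg _) hj
          have h8 : t j ^ 2 * S ^ 2 ≤ 624 * E :=
            (mul_le_mul_of_nonneg_right h7 (by positivity)).trans h6
          refine abs_le_of_sq_le_sq' ?_ (by positivity) |>.2
          rw [mul_pow, sq_abs, mul_pow, hrr]
          linarith
        have hdev : ∀ j ∈ range 6, |φ j - π / 6| * S ≤ 14.45 * r := by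
          intro j hj
          have h7 := mul_le_mul_of_nonneg_right (hlip j hj) hSnn
          have h8 := hT j hj
          nlinarith
        have hs01 : sd P 0 + sd P 1 ≤ S := by
          have h7 : ∑ j ∈ range 2, sd P j ≤ S := by
            rw [hS]
            exact Finset.sum_le_sum_of_subset_of_nonneg (by
              intro j hj
              simp only [Finset.mem_range] at hj ⊢
              omega) fun j _ _ => norm_nonneg _
          simpa [Finset.sum_range_succ] using h7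
        have hs0' : sd P 0 ≤ S / 2 := by
          have h7 : P 1 - P 0 = -((P 2 - P 1) + (P 3 - P 2) + (P 4 - P 3) + (P 5 - P 4) +
              (P 6 - P 5)) := by
            rw [hP]
            ring
          have h8 : sd P 0 ≤ sd P 1 + sd P 2 + sd P 3 + sd P 4 + sd P 5 := by
            unfold sd
            simp only [zero_add]
            rw [h7, norm_neg]
            refine (norm_add_le _ _).trans (add_le_add ?_ le_rfl)
            refine (norm_add_le _ _).trans (add_le_add ?_ le_rfl)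
            refine (norm_add_le _ _).trans (add_le_add ?_ le_rfl)
            exact norm_add_le _ _
          have h9 : S = sd P 0 + sd P 1 + sd P 2 + sd P 3 + sd P 4 + sd P 5 := by
            rw [hS]
            simp [Finset.sum_range_succ]
          linarith
        have m0 : (0 : ℕ) ∈ range 6 := by simp
        have m1 : (1 : ℕ) ∈ range 6 := by simp
        have hd0 := hdev 0 m0
        have hd1 := hdev 1 m1
        have hsin : ∀ j, |Real.sin (φ j) - 1 / 2| ≤ |φ j - π / 6| := by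
          intro j
          have h7 := Real.abs_sin_sub_sin_le (φ j) (π / 6)
          rwa [Real.sin_pi_div_six] at h7
        have hexp : ‖Complex.exp (Complex.I * ((φ 0 + φ 1 : ℝ) : ℂ)) - RG.om‖ ≤
            |φ 0 - π / 6| + |φ 1 - π / 6| := by
          refine (ps_norm_om _).trans ?_
          have h7 : φ 0 + φ 1 - π / 3 = (φ 0 - π / 6) + (φ 1 - π / 6) := by ring
          rw [h7]
          exact abs_add_le _ _
        have hen : ‖Complex.exp (Complex.I * ((φ 0 + φ 1 : ℝ) : ℂ))‖ = 1 := by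
          rw [mul_comm, Complex.norm_exp_ofReal_mul_I]
        -- decomposition
        have hdec : v1 - RG.om * v0 = 2 * (-X + ((1 / 2 - Real.sin (φ 0) : ℝ) : ℂ) * v1 +
            ((Real.sin (φ 1) - 1 / 2 : ℝ) : ℂ) *
              Complex.exp (Complex.I * ((φ 0 + φ 1 : ℝ) : ℂ)) * v0 +
            (1 / 2 : ℂ) * (Complex.exp (Complex.I * ((φ 0 + φ 1 : ℝ) : ℂ)) - RG.om) * v0) := by
          rw [hX]
          push_cast
          ring
        have n1 : ‖((1 / 2 - Real.sin (φ 0) : ℝ) : ℂ) * v1‖ ≤ |φ 0 - π / 6| * sd P 1 := by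
          rw [norm_mul, Complex.norm_real, Real.norm_eq_abs, hs1, abs_sub_comm]
          exact mul_le_mul_of_nonneg_right (hsin 0) (norm_nonneg _)
        have n2 : ‖((Real.sin (φ 1) - 1 / 2 : ℝ) : ℂ) *
              Complex.exp (Complex.I * ((φ 0 + φ 1 : ℝ) : ℂ)) * v0‖ ≤ |φ 1 - π / 6| * sd P 0 := by
          rw [norm_mul, norm_mul, Complex.norm_real, Real.norm_eq_abs, hs0, hen, mul_one]
          exact mul_le_mul_of_nonneg_right (hsin 1) (norm_nonneg _)
        have n3 : ‖(1 / 2 : ℂ) * (Complex.exp (Complex.I * ((φ 0 + φ 1 : ℝ) : ℂ)) - RG.om) * v0‖ ≤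
            1 / 2 * (|φ 0 - π / 6| + |φ 1 - π / 6|) * sd P 0 := by
          rw [norm_mul, norm_mul, hs0]
          have h7 : ‖(1 / 2 : ℂ)‖ = 1 / 2 := by simp
          rw [h7]
          refine mul_le_mul_of_nonneg_right ?_ (norm_nonneg _)
          exact mul_le_mul_of_nonneg_left hexp (by norm_num)
        have htot : ‖v1 - RG.om * v0‖ ≤ 2 * (0.54 * r + |φ 0 - π / 6| * sd P 1 +
            |φ 1 - π / 6| * sd P 0 + 1 / 2 * (|φ 0 - π / 6| + |φ 1 - π / 6|) * sd P 0) := by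
          rw [hdec, norm_mul, Complex.norm_ofNat]
          refine mul_le_mul_of_nonneg_left ?_ (by norm_num)
          refine (norm_add_le _ _).trans (add_le_add ?_ n3)
          refine (norm_add_le _ _).trans (add_le_add ?_ n2)
          refine (norm_add_le _ _).trans (add_le_add ?_ n1)
          rw [norm_neg]
          exact hXn
        have p0 : 0 ≤ sd P 0 := norm_nonneg _
        have p1 : 0 ≤ sd P 1 := norm_nonneg _
        have a0 : 0 ≤ |φ 0 - π / 6| := abs_nonneg _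
        have a1 : 0 ≤ |φ 1 - π / 6| := abs_nonneg _
        generalize |φ 0 - π / 6| = A0 at *
        generalize |φ 1 - π / 6| = A1 at *
        -- `M` is the maximum of the deviations
        have hM : A0 * sd P 1 + A1 * sd P 0 + 1 / 2 * (A0 + A1) * sd P 0 ≤ 21.675 * r := by
          have q1 : A0 * (sd P 1 + 1 / 2 * sd P 0) + A1 * (3 / 2 * sd P 0) ≤
              max A0 A1 * (sd P 1 + 2 * sd P 0) := by
            have := le_max_left A0 A1
            have := le_max_right A0 A1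
            nlinarith
          have q2 : max A0 A1 * S ≤ 14.45 * r := by
            rcases max_choice A0 A1 with h | h
            · rw [h]
              exact hd0
            · rw [h]
              exact hd1
          have q3 : max A0 A1 * (sd P 1 + 2 * sd P 0) ≤ max A0 A1 * (3 / 2 * S) :=
            mul_le_mul_of_nonneg_left (by linarith) (le_max_of_le_left a0)
          nlinarith
        have hfin : ‖v1 - RG.om * v0‖ ≤ 44.43 * r := by
          refine htot.trans ?_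
          linarith
        calc ‖v1 - RG.om * v0‖ ^ 2 ≤ (44.43 * r) ^ 2 :=
              pow_le_pow_left₀ (norm_nonneg _) hfin 2
          _ = 44.43 ^ 2 * E := by rw [mul_pow, hrr]
          _ ≤ 2100 * E := mul_le_mul_of_nonneg_right (by norm_num) hE0
    simp only [zero_mul, add_zero] at hlim
    exact hlim

end Pool.Agent.Helper38.HS
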