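import Pool.Agent.Helper38.HS.Defs
import Pool.Agent.Helper38.LC2.Chain

/-!
# HS-01: the polygon inequality with slack (six sides)

Write `v j = P (j+1) - P j`, `s j = sd P j = ‖v j‖`.  `4 * pa P = 2 ∑ cr (P j) (P (j+1))`.
* `two_slack`: this is `ch_two` (file `LC2/Two.lean`) with its remainder: the proof there shows
  `ct a ‖z‖² + ct b ‖w‖² - ct (a+b) ‖z+w‖² - 2 cr z w = ‖sin b e^{i(a+b)} z - sin a w‖² / (sin a sin b sin (a+b))`, and the denominator is in `(0, 1]`.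
* `slackA`: first `k = 0`: `chain_ineq` for the path `j ↦ P (j+1)` with `5` steps and the angles `φ (j+1)` (their sum `Φ` is `< π` because `φ 0 > 0`):
  `ct Φ ‖P 6 - P 1‖² + 4 pbul ≤ ∑_{1 ≤ j < 6} ct (φ j) s j²`, `P 6 - P 1 = P 0 - P 1`, and `4 pbul (j ↦ P (j+1)) 5 = 4 * pa P` (unfold `pbul`, `parea`, `sum_range_succ`, `closed`; ring).
  Add `ct (φ 0) s 0²`: `ct (φ 0) + ct Φ = sin (φ 0 + Φ) / (sin (φ 0) sin Φ) ≥ sin (φ 0 + Φ) ≥ 0`.
  General `k`: apply this to `j ↦ P ((j + k) % 6)`, `j ↦ φ ((j + k) % 6)` (`k < 6`: `interval_cases k`, `simp [Finset.sum_range_succ]`, `closed`, `ring`-normalisation of the order of the sums).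
* `slackB`: `chain_ineq` for the path `j ↦ P (j+2)` with `4` steps (sum `Ψ < π`): `ct Ψ ‖P 2 - P 0‖² + 4 pbul ≤ ∑_{2 ≤ j < 6}`; `two_slack` for `v 0`, `v 1`, `a = φ 0`, `b = φ 1`
  (`v 0 + v 1 = P 2 - P 0`); the areas add up to `4 * pa P`; `ct Ψ + ct (φ 0 + φ 1) = sin (∑ φ) / (..) ≥ 0`.
-/

namespace Pool.Agent.Helper38.HS

open Finset Real Pool.Agent.Helper98.LC Pool.Agent.Helper38.LC2

theorem two_slack {a b : ℝ} (ha : 0 < a) (hb : 0 < b) (hab : a + b < π) (z w : ℂ) :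
    ct (a + b) * ‖z + w‖ ^ 2 + 2 * cr z w +
        ‖(Real.sin b : ℂ) * Complex.exp (Complex.I * ((a + b : ℝ) : ℂ)) * z - (Real.sin a : ℂ) * w‖ ^ 2 ≤
      ct a * ‖z‖ ^ 2 + ct b * ‖w‖ ^ 2 := by
  have hsa : 0 < Real.sin a := sin_pos_of_pos_of_lt_pi ha (by linarith)
  have hsb : 0 < Real.sin b := sin_pos_of_pos_of_lt_pi hb (by linarith)
  have hs : 0 < Real.sin (a + b) := sin_pos_of_pos_of_lt_pi (by linarith) hab
  have h1 : Real.cos a * Real.sin (a + b) - Real.cos (a + b) * Real.sin a = Real.sin b := by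
    have h := Real.sin_sub (a + b) a
    rw [add_sub_cancel_left] at h
    rw [h]
    ring
  have h2 : Real.cos b * Real.sin (a + b) - Real.cos (a + b) * Real.sin b = Real.sin a := by
    have h := Real.sin_sub (a + b) b
    rw [add_sub_cancel_right] at h
    rw [h]
    ring
  have h3 : Real.cos (a + b) ^ 2 + Real.sin (a + b) ^ 2 = 1 := Real.cos_sq_add_sin_sq _
  have hn : ∀ u : ℂ, ‖u‖ ^ 2 = u.re ^ 2 + u.im ^ 2 := by
    intro u
    rw [← Complex.normSq_eq_norm_sq, Complex.normSq_apply]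
    ring
  have hexp : Complex.exp (Complex.I * ((a + b : ℝ) : ℂ)) =
      ⟨Real.cos (a + b), Real.sin (a + b)⟩ := by
    rw [mul_comm]
    exact Complex.ext (Complex.exp_ofReal_mul_I_re _) (Complex.exp_ofReal_mul_I_im _)
  have hN : ‖(Real.sin b : ℂ) * Complex.exp (Complex.I * ((a + b : ℝ) : ℂ)) * z -
      (Real.sin a : ℂ) * w‖ ^ 2 =
      (Real.sin b * (Real.cos (a + b) * z.re - Real.sin (a + b) * z.im) - Real.sin a * w.re) ^ 2 +
        (Real.sin b * (Real.sin (a + b) * z.re + Real.cos (a + b) * z.im) -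
          Real.sin a * w.im) ^ 2 := by
    rw [hn, hexp]
    simp only [Complex.sub_re, Complex.sub_im, Complex.mul_re, Complex.mul_im, Complex.ofReal_re,
      Complex.ofReal_im]
    ring
  rw [hN, hn, hn, hn]
  have l1 : Real.sin a ≤ 1 := Real.sin_le_one a
  have l2 : Real.sin b ≤ 1 := Real.sin_le_one b
  have l3 : Real.sin (a + b) ≤ 1 := Real.sin_le_one _
  unfold ct cr
  rw [Complex.add_re, Complex.add_im]
  set sa := Real.sin a
  set sb := Real.sin b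
  set s := Real.sin (a + b)
  set c := Real.cos (a + b)
  set ca := Real.cos a
  set cb := Real.cos b
  have key : ca / sa * (z.re ^ 2 + z.im ^ 2) + cb / sb * (w.re ^ 2 + w.im ^ 2) -
      (c / s * ((z.re + w.re) ^ 2 + (z.im + w.im) ^ 2) + 2 * (z.re * w.im - z.im * w.re)) =
      ((sb * (c * z.re - s * z.im) - sa * w.re) ^ 2 +
        (sb * (s * z.re + c * z.im) - sa * w.im) ^ 2) / (sa * sb * s) := by
    rw [eq_div_iff (by positivity)]
    field_simp
    linear_combination sb * (z.re ^ 2 + z.im ^ 2) * h1 + sa * (w.re ^ 2 + w.im ^ 2) * h2 -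
      sb ^ 2 * (z.re ^ 2 + z.im ^ 2) * h3
  have hden0 : 0 < sa * sb * s := by positivity
  have hden1 : sa * sb * s ≤ 1 := by
    have h5 : sa * sb ≤ 1 := mul_le_one₀ l1 hsb.le l2
    exact mul_le_one₀ h5 hs.le l3
  have hpos : (sb * (c * z.re - s * z.im) - sa * w.re) ^ 2 +
        (sb * (s * z.re + c * z.im) - sa * w.im) ^ 2 ≤
      ((sb * (c * z.re - s * z.im) - sa * w.re) ^ 2 +
        (sb * (s * z.re + c * z.im) - sa * w.im) ^ 2) / (sa * sb * s) := by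
    rw [le_div_iff₀ hden0]
    have h6 : 0 ≤ (sb * (c * z.re - s * z.im) - sa * w.re) ^ 2 +
        (sb * (s * z.re + c * z.im) - sa * w.im) ^ 2 := by positivity
    nlinarith
  linarith

private theorem ct_add {a b : ℝ} (ha : 0 < a) (hb : 0 < b) (hab : a + b ≤ π) (ha' : a < π)
    (hb' : b < π) : Real.sin (a + b) ≤ ct a + ct b ∧ 0 ≤ ct a + ct b := by
  have hsa : 0 < Real.sin a := sin_pos_of_pos_of_lt_pi ha ha'
  have hsb : 0 < Real.sin b := sin_pos_of_pos_of_lt_pi hb hb'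
  have hs : 0 ≤ Real.sin (a + b) := sin_nonneg_of_nonneg_of_le_pi (by linarith) hab
  have h1 : ct a + ct b = Real.sin (a + b) / (Real.sin a * Real.sin b) := by
    unfold ct
    rw [Real.sin_add]
    field_simp
    ring
  have h2 : 0 < Real.sin a * Real.sin b := by positivity
  have h3 : Real.sin a * Real.sin b ≤ 1 :=
    mul_le_one₀ (Real.sin_le_one a) hsb.le (Real.sin_le_one b)
  rw [h1]
  refine ⟨?_, by positivity⟩
  rw [le_div_iff₀ h2]
  nlinarith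

private theorem slackA0 {P : ℕ → ℂ} (hP : P 6 = P 0) {φ : ℕ → ℝ}
    (hφ : ∀ j ∈ range 6, 0 < φ j) (hs : ∑ j ∈ range 6, φ j ≤ π) :
    Real.sin (∑ j ∈ range 6, φ j) * sd P 0 ^ 2 ≤
      ∑ j ∈ range 6, ct (φ j) * sd P j ^ 2 - 4 * pa P := by
  have h0 : 0 < φ 0 := hφ 0 (by simp)
  have h1 : 0 < φ 1 := hφ 1 (by simp)
  have h2 : 0 < φ 2 := hφ 2 (by simp)
  have h3 : 0 < φ 3 := hφ 3 (by simp)
  have h4 : 0 < φ 4 := hφ 4 (by simp)
  have h5 : 0 < φ 5 := hφ 5 (by simp)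
  have hsum : ∑ j ∈ range 6, φ j = φ 0 + (φ 1 + φ 2 + φ 3 + φ 4 + φ 5) := by
    simp only [Finset.sum_range_succ, Finset.sum_range_zero]
    ring
  have hsum5 : ∑ j ∈ range 5, φ (j + 1) = φ 1 + φ 2 + φ 3 + φ 4 + φ 5 := by
    simp only [Finset.sum_range_succ, Finset.sum_range_zero]
    ring
  rw [hsum] at hs
  have hc := chain_ineq (fun j => P (j + 1)) 5 (by norm_num) (fun j => φ (j + 1))
    (fun j hj => hφ (j + 1) (by rw [Finset.mem_range]; omega)) (by rw [hsum5]; linarith)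
  rw [hsum5] at hc
  have hb : 4 * pbul (fun j => P (j + 1)) 5 = 4 * pa P := by
    unfold pbul parea pa
    simp only [Finset.sum_range_succ, Finset.sum_range_zero, Nat.reduceAdd, hP, zero_add]
    unfold cr
    ring
  have hn : ‖P (5 + 1) - P (0 + 1)‖ = sd P 0 := by
    unfold sd
    rw [norm_sub_rev, Nat.zero_add]
    change ‖P 1 - P 6‖ = _
    rw [hP]
  simp only [hb, hn] at hc
  have hct := (ct_add h0 (b := φ 1 + φ 2 + φ 3 + φ 4 + φ 5) (by linarith) hs (by linarith)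
    (by linarith)).1
  rw [hsum]
  have hs5 : ∑ j ∈ range 5, ct (φ (j + 1)) * ‖P (j + 1 + 1) - P (j + 1)‖ ^ 2 =
      ∑ j ∈ range 5, ct (φ (j + 1)) * sd P (j + 1) ^ 2 := rfl
  have hs6 : ∑ j ∈ range 6, ct (φ j) * sd P j ^ 2 =
      ∑ j ∈ range 5, ct (φ (j + 1)) * sd P (j + 1) ^ 2 + ct (φ 0) * sd P 0 ^ 2 :=
    Finset.sum_range_succ' _ _
  rw [hs5] at hc
  rw [hs6]
  have h7 := mul_le_mul_of_nonneg_right hct (sq_nonneg (sd P 0))
  rw [add_mul] at h7
  linarith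

theorem slackA {P : ℕ → ℂ} (hP : P 6 = P 0) {φ : ℕ → ℝ} (hφ : ∀ j ∈ range 6, 0 < φ j)
    (hs : ∑ j ∈ range 6, φ j ≤ π) {k : ℕ} (hk : k ∈ range 6) :
    Real.sin (∑ j ∈ range 6, φ j) * sd P k ^ 2 ≤
      ∑ j ∈ range 6, ct (φ j) * sd P j ^ 2 - 4 * pa P := by
  have hk6 : k < 6 := Finset.mem_range.1 hk
  have hstep : ∀ m : ℕ, P ((m + 1) % 6) = P (m % 6 + 1) := by
    intro m
    by_cases h : m % 6 = 5
    · have h1 : (m + 1) % 6 = 0 := by omega
      rw [h, h1, ← hP]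
    · have h1 : (m + 1) % 6 = m % 6 + 1 := by omega
      rw [h1]
  have hsum : ∀ g : ℕ → ℝ, ∑ j ∈ range 6, g ((j + k) % 6) = ∑ j ∈ range 6, g j := by
    intro g
    interval_cases k <;>
      simp only [Finset.sum_range_succ, Finset.sum_range_zero, Nat.reduceAdd, Nat.reduceMod] <;>
      ring
  have hsd : ∀ j, sd (fun j => P ((j + k) % 6)) j = sd P ((j + k) % 6) := by
    intro j
    unfold sd
    have h1 : (j + 1 + k) % 6 = (j + k + 1) % 6 := by congr 1; omega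
    change ‖P ((j + 1 + k) % 6) - P ((j + k) % 6)‖ = _
    rw [h1, hstep]
  have hpa : pa (fun j => P ((j + k) % 6)) = pa P := by
    unfold pa
    rw [← hsum (fun j => cr (P j) (P (j + 1)))]
    congr 1
    refine Finset.sum_congr rfl fun j _ => ?_
    have h1 : (j + 1 + k) % 6 = (j + k + 1) % 6 := by congr 1; omega
    change cr (P ((j + k) % 6)) (P ((j + 1 + k) % 6)) = _
    rw [h1, hstep]
  have h := slackA0 (P := fun j => P ((j + k) % 6)) (φ := fun j => φ ((j + k) % 6))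
    (by
      congr 1
      omega)
    (fun j _ => hφ _ (Finset.mem_range.2 (Nat.mod_lt _ (by norm_num))))
    (by rw [hsum φ]; exact hs)
  rw [hsum φ, hsd, hpa] at h
  have h2 : ∑ j ∈ range 6, ct (φ ((j + k) % 6)) * sd (fun j => P ((j + k) % 6)) j ^ 2 =
      ∑ j ∈ range 6, ct (φ j) * sd P j ^ 2 := by
    rw [← hsum (fun j => ct (φ j) * sd P j ^ 2)]
    exact Finset.sum_congr rfl fun j _ => by rw [hsd]
  rw [h2] at h
  have h3 : (0 + k) % 6 = k := by omega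
  rw [h3] at h
  exact h

theorem slackB {P : ℕ → ℂ} (hP : P 6 = P 0) {φ : ℕ → ℝ} (hφ : ∀ j ∈ range 6, 0 < φ j)
    (hs : ∑ j ∈ range 6, φ j ≤ π) :
    ‖(Real.sin (φ 1) : ℂ) * Complex.exp (Complex.I * ((φ 0 + φ 1 : ℝ) : ℂ)) * (P 1 - P 0) -
        (Real.sin (φ 0) : ℂ) * (P 2 - P 1)‖ ^ 2 ≤
      ∑ j ∈ range 6, ct (φ j) * sd P j ^ 2 - 4 * pa P := by
  have h0 : 0 < φ 0 := hφ 0 (by simp)
  have h1 : 0 < φ 1 := hφ 1 (by simp)
  have h2 : 0 < φ 2 := hφ 2 (by simp)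
  have h3 : 0 < φ 3 := hφ 3 (by simp)
  have h4 : 0 < φ 4 := hφ 4 (by simp)
  have h5 : 0 < φ 5 := hφ 5 (by simp)
  have hsum : ∑ j ∈ range 6, φ j = (φ 0 + φ 1) + (φ 2 + φ 3 + φ 4 + φ 5) := by
    simp only [Finset.sum_range_succ, Finset.sum_range_zero]
    ring
  have hsum4 : ∑ j ∈ range 4, φ (j + 2) = φ 2 + φ 3 + φ 4 + φ 5 := by
    simp only [Finset.sum_range_succ, Finset.sum_range_zero]
    ring
  rw [hsum] at hs
  have hc := chain_ineq (fun j => P (j + 2)) 4 (by norm_num) (fun j => φ (j + 2))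
    (fun j hj => hφ (j + 2) (by rw [Finset.mem_range]; omega)) (by rw [hsum4]; linarith)
  rw [hsum4] at hc
  have ht := two_slack h0 h1 (by linarith) (P 1 - P 0) (P 2 - P 1)
  have hz : P 1 - P 0 + (P 2 - P 1) = P 2 - P 0 := by ring
  rw [hz] at ht
  have hb : 2 * cr (P 1 - P 0) (P 2 - P 1) + 4 * pbul (fun j => P (j + 2)) 4 = 4 * pa P := by
    unfold pbul parea pa
    simp only [Finset.sum_range_succ, Finset.sum_range_zero, Nat.reduceAdd, hP, zero_add]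
    unfold cr
    simp only [Complex.sub_re, Complex.sub_im]
    ring
  have hn : ‖P (4 + 2) - P (0 + 2)‖ = ‖P 2 - P 0‖ := by
    rw [norm_sub_rev, Nat.zero_add]
    change ‖P 2 - P 6‖ = _
    rw [hP]
  simp only [hn] at hc
  have hct := (ct_add (a := φ 0 + φ 1) (b := φ 2 + φ 3 + φ 4 + φ 5) (by linarith) (by linarith)
    hs (by linarith) (by linarith)).2
  have hs4 : ∑ j ∈ range 4, ct (φ (j + 2)) * ‖P (j + 1 + 2) - P (j + 2)‖ ^ 2 =
      ct (φ 2) * sd P 2 ^ 2 + ct (φ 3) * sd P 3 ^ 2 + ct (φ 4) * sd P 4 ^ 2 +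
        ct (φ 5) * sd P 5 ^ 2 := by
    simp only [Finset.sum_range_succ, Finset.sum_range_zero, Nat.reduceAdd, zero_add]
    rfl
  have hs6 : ∑ j ∈ range 6, ct (φ j) * sd P j ^ 2 =
      ct (φ 0) * sd P 0 ^ 2 + ct (φ 1) * sd P 1 ^ 2 + (ct (φ 2) * sd P 2 ^ 2 +
        ct (φ 3) * sd P 3 ^ 2 + ct (φ 4) * sd P 4 ^ 2 + ct (φ 5) * sd P 5 ^ 2) := by
    simp only [Finset.sum_range_succ, Finset.sum_range_zero, zero_add]
    ring
  rw [hs4] at hc
  rw [hs6]
  have hd0 : ‖P 1 - P 0‖ = sd P 0 := rfl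
  have hd1 : ‖P 2 - P 1‖ = sd P 1 := rfl
  rw [hd0, hd1] at ht
  have h7 := mul_nonneg hct (sq_nonneg ‖P 2 - P 0‖)
  rw [add_mul] at h7
  linarith

end Pool.Agent.Helper38.HS
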